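import Pool.Agent.H716R2.MixK

set_option autoImplicit false
open MeasureTheory Filter Topology
open Pool.Agent.H716R2

namespace Pool.Agent.W735.Rok

variable {X : Type*} [MeasurableSpace X]

/-- A property that holds eventually along all spread out sequences of time vectors holds for all
time vectors with sufficiently large gaps. -/
theorem gap_unif {r : ℕ} (P : (Fin r → ℕ) → Prop)
    (hP : ∀ s : ℕ → Fin r → ℕ, Spread s → ∀ᶠ n in atTop, P (s n)) :
    ∃ N : ℕ, ∀ u : Fin r → ℕ, (∀ i j, i < j → u i + N ≤ u j) → P u := by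
  by_contra hcon
  push Not at hcon
  choose u hu1 hu2 using hcon
  have hs : Spread u := by
    intro N
    filter_upwards [eventually_ge_atTop N] with n hn
    intro i j hij
    have := hu1 n i j hij
    omega
  obtain ⟨n, hn⟩ := (hP _ hs).exists
  exact hu2 n hn

theorem factor_unif {μ : Measure X} [IsProbabilityMeasure μ] {T : X ≃ᵐ X}
    (hT : MeasurePreserving T μ μ) {r : ℕ} (hfact : FactSet μ T r)
    (g : Fin r → X → ℂ) (hg : ∀ i, BM (g i)) {δ : ℝ} (hδ : 0 < δ) :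
    ∃ N : ℕ, ∀ u : Fin r → ℕ, (∀ i j, i < j → u i + N ≤ u j) →
      ‖∫ x, ∏ i, g i ((⇑T)^[u i] x) ∂μ - ∏ i, ∫ x, g i x ∂μ‖ < δ := by
  refine gap_unif _ (fun s hs => ?_)
  have h := fact_fun hT hfact hs g (fun i => (hg i).1) (fun i => (hg i).2)
  obtain ⟨N, hN⟩ := Metric.tendsto_atTop.1 h δ hδ
  filter_upwards [eventually_ge_atTop N] with n hn
  have := hN n hn
  rwa [dist_eq_norm] at this

theorem BM.conj {g : X → ℂ} (hg : BM g) : BM (fun x => (starRingEnd ℂ) (g x)) := by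
  obtain ⟨h1, C, h2⟩ := hg
  exact ⟨Complex.continuous_conj.measurable.comp h1, C, fun x => by
    rw [RCLike.norm_conj]; exact h2 x⟩

theorem BM.mul {g h : X → ℂ} (hg : BM g) (hh : BM h) : BM (fun x => g x * h x) := by
  obtain ⟨h1, C, h2⟩ := hg
  obtain ⟨h3, D, h4⟩ := hh
  refine ⟨h1.mul h3, C * D, fun x => ?_⟩
  rw [norm_mul]
  exact mul_le_mul (h2 x) (h4 x) (norm_nonneg _) ((norm_nonneg _).trans (h2 x))

theorem BM.iter {g : X → ℂ} (hg : BM g) (T : X ≃ᵐ X) (n : ℕ) :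
    BM (fun x => g ((⇑T)^[n] x)) := by
  obtain ⟨h1, C, h2⟩ := hg
  exact ⟨h1.comp (iter_meas T n), C, fun x => h2 _⟩

theorem BM.prod {r : ℕ} {g : Fin r → X → ℂ} (hg : ∀ i, BM (g i)) (T : X ≃ᵐ X)
    (s : Fin r → ℕ) : BM (fun x => ∏ i, g i ((⇑T)^[s i] x)) := by
  choose h1 C h2 using hg
  refine ⟨prod_comp_meas T h1 _ s, ∏ i, C i, fun x => ?_⟩
  rw [norm_prod]
  exact Finset.prod_le_prod (fun i _ => norm_nonneg _) (fun i _ => h2 i _)

/-- Integrals do not change under iterates. -/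
theorem int_iter {μ : Measure X} {T : X ≃ᵐ X} (hT : MeasurePreserving T μ μ) (n : ℕ)
    {E : Type*} [NormedAddCommGroup E] [NormedSpace ℝ E] (g : X → E) :
    ∫ x, g ((⇑T)^[n] x) ∂μ = ∫ x, g x ∂μ :=
  (iter_mp hT n).integral_comp' (f := (⟨⟨(⇑T)^[n], (⇑T.symm)^[n],
            fun x => symm_iter_left T n x, fun x => symm_iter_right T n x⟩, iter_meas T n,
            iter_meas T.symm n⟩ : X ≃ᵐ X)) (g := g)

/-- Correlations of a single function. -/
noncomputable def cor (μ : Measure X) (T : X ≃ᵐ X) (f : X → ℂ) (a b : ℕ) : ℂ :=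
  ∫ x, f ((⇑T)^[a] x) * (starRingEnd ℂ) (f ((⇑T)^[b] x)) ∂μ

theorem cor_add {μ : Measure X} {T : X ≃ᵐ X} (hT : MeasurePreserving T μ μ) (f : X → ℂ)
    (a b c : ℕ) : cor μ T f (a + c) (b + c) = cor μ T f a b := by
  unfold cor
  rw [← int_iter hT c (fun x => f ((⇑T)^[a] x) * (starRingEnd ℂ) (f ((⇑T)^[b] x)))]
  congr 1
  ext x
  rw [← Function.iterate_add_apply, ← Function.iterate_add_apply]

theorem sq_int {μ : Measure X} [IsProbabilityMeasure μ] {f : X → ℂ} (hf : BM f) :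
    Integrable (fun x => ‖f x‖ ^ 2) μ := by
  obtain ⟨h1, C, h2⟩ := hf
  refine Integrable.of_bound (h1.norm.pow_const 2).aestronglyMeasurable (C ^ 2)
    (Eventually.of_forall (fun x => ?_))
  rw [Real.norm_eq_abs, abs_of_nonneg (by positivity)]
  exact pow_le_pow_left₀ (norm_nonneg _) (h2 x) 2

theorem cor_le {μ : Measure X} [IsProbabilityMeasure μ] {T : X ≃ᵐ X}
    (hT : MeasurePreserving T μ μ) {f : X → ℂ} (hf : BM f) (a b : ℕ) :
    ‖cor μ T f a b‖ ≤ ∫ x, ‖f x‖ ^ 2 ∂μ := by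
  unfold cor
  have hi := sq_int (μ := μ) hf
  have hia : ∀ n : ℕ, Integrable (fun x => ‖f ((⇑T)^[n] x)‖ ^ 2) μ := fun n =>
    sq_int (BM.iter hf T n)
  calc ‖∫ x, f ((⇑T)^[a] x) * (starRingEnd ℂ) (f ((⇑T)^[b] x)) ∂μ‖
      ≤ ∫ x, ‖f ((⇑T)^[a] x) * (starRingEnd ℂ) (f ((⇑T)^[b] x))‖ ∂μ :=
        norm_integral_le_integral_norm _
    _ ≤ ∫ x, (1 / 2 * ‖f ((⇑T)^[a] x)‖ ^ 2 + 1 / 2 * ‖f ((⇑T)^[b] x)‖ ^ 2) ∂μ := by
        refine integral_mono ((BM.mul (BM.iter hf T a) (BM.conj (BM.iter hf T b))).integrable.norm)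
          (((hia a).const_mul _).add ((hia b).const_mul _)) (fun x => ?_)
        simp only [norm_mul, RCLike.norm_conj]
        nlinarith [sq_nonneg (‖f ((⇑T)^[a] x)‖ - ‖f ((⇑T)^[b] x)‖)]
    _ = ∫ x, ‖f x‖ ^ 2 ∂μ := by
        rw [integral_add ((hia a).const_mul _) ((hia b).const_mul _), integral_const_mul,
          integral_const_mul, int_iter hT a (fun x => ‖f x‖ ^ 2),
          int_iter hT b (fun x => ‖f x‖ ^ 2)]
        ring

theorem cor_decay {k : ℕ} (hk : 1 ≤ k) {μ : Measure X} [IsProbabilityMeasure μ] {T : X ≃ᵐ X}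
    (hT : MeasurePreserving T μ μ) (hfact : FactSet μ T (k + 1)) {f : X → ℂ} (hf : BM f)
    (h0 : ∫ x, f x ∂μ = 0) {δ : ℝ} (hδ : 0 < δ) :
    ∃ R : ℕ, ∀ a b : ℕ, (a + R < b ∨ b + R < a) → ‖cor μ T f a b‖ < δ := by
  have key : ∀ g h : X → ℂ, BM g → BM h → ∫ x, h x ∂μ = 0 →
      ∃ R : ℕ, ∀ d : ℕ, R ≤ d → ‖∫ x, g x * h ((⇑T)^[d] x) ∂μ‖ < δ := by
    intro g h hg hh hh0
    let C : Fin (k + 1) → X → ℂ := fun i => if (i : ℕ) = 0 then g else if (i : ℕ) = 1 then h
      else fun _ => 1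
    have hC : ∀ i, BM (C i) := by
      intro i
      simp only [C]
      split_ifs
      · exact hg
      · exact hh
      · exact BM.const 1
    obtain ⟨N, hN⟩ := factor_unif hT hfact C hC hδ
    refine ⟨N, fun d hd => ?_⟩
    have h1 := hN (fun i => i * d) (by
      intro i j hij
      have h2 : (i : ℕ) + 1 ≤ j := hij
      calc (i : ℕ) * d + N ≤ i * d + d := by omega
        _ = ((i : ℕ) + 1) * d := by ring
        _ ≤ j * d := Nat.mul_le_mul_right d h2)
    have e2 : ∏ i, ∫ x, C i x ∂μ = 0 := by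
      refine Finset.prod_eq_zero (Finset.mem_univ (⟨1, by omega⟩ : Fin (k + 1))) ?_
      simp only [C, one_ne_zero, if_false, if_true]
      exact hh0
    have e1 : ∫ x, ∏ i, C i ((⇑T)^[(i : ℕ) * d] x) ∂μ = ∫ x, g x * h ((⇑T)^[d] x) ∂μ := by
      congr 1
      ext x
      rw [← Finset.mul_prod_erase _ _ (Finset.mem_univ (⟨0, by omega⟩ : Fin (k + 1))),
        ← Finset.mul_prod_erase _ _ (show (⟨1, by omega⟩ : Fin (k + 1)) ∈
          Finset.univ.erase (⟨0, by omega⟩ : Fin (k + 1)) by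
            simp only [Finset.mem_erase, Finset.mem_univ, and_true, ne_eq]
            intro h0
            have := congrArg Fin.val h0
            simp at this)]
      have h3 : ∏ i ∈ (Finset.univ.erase (⟨0, by omega⟩ : Fin (k + 1))).erase ⟨1, by omega⟩,
          C i ((⇑T)^[(i : ℕ) * d] x) = 1 := by
        refine Finset.prod_eq_one (fun i hi => ?_)
        simp only [Finset.mem_erase, Finset.mem_univ, and_true] at hi
        have h4 : (i : ℕ) ≠ 0 := fun h => hi.2 (Fin.ext h)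
        have h5 : (i : ℕ) ≠ 1 := fun h => hi.1 (Fin.ext h)
        simp only [C]
        rw [if_neg h4, if_neg h5]
      rw [h3, mul_one]
      simp [C]
    rw [e2, sub_zero, e1] at h1
    exact h1
  have hc0 : ∫ x, (starRingEnd ℂ) (f x) ∂μ = 0 := by
    rw [integral_conj, h0, map_zero]
  obtain ⟨R1, hR1⟩ := key f (fun x => (starRingEnd ℂ) (f x)) hf (BM.conj hf) hc0
  obtain ⟨R2, hR2⟩ := key (fun x => (starRingEnd ℂ) (f x)) f (BM.conj hf) hf h0
  refine ⟨max R1 R2, fun a b hab => ?_⟩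
  rcases hab with hab | hab
  · have h1 := hR1 (b - a) (by omega)
    have e : cor μ T f a b = ∫ x, f x * (starRingEnd ℂ) (f ((⇑T)^[b - a] x)) ∂μ := by
      have := cor_add hT f 0 (b - a) a
      rw [zero_add, Nat.sub_add_cancel (by omega)] at this
      rw [this]
      rfl
    rw [e]
    exact h1
  · have h1 := hR2 (a - b) (by omega)
    have e : cor μ T f a b = ∫ x, (starRingEnd ℂ) (f x) * f ((⇑T)^[a - b] x) ∂μ := by
      have := cor_add hT f (a - b) 0 b
      rw [zero_add, Nat.sub_add_cancel (by omega)] at this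
      rw [this]
      unfold cor
      congr 1
      ext x
      rw [mul_comm]
      rfl
    rw [e]
    exact h1

/-- Asymptotic value of the inner products of products of translates. -/
theorem gram {k : ℕ} {μ : Measure X} [IsProbabilityMeasure μ] {T : X ≃ᵐ X}
    (hT : MeasurePreserving T μ μ) (hfact : FactSet μ T (k + 1)) (f : Fin (k + 1) → X → ℂ)
    (hf : ∀ i, BM (f i)) (L : ℕ) {δ : ℝ} (hδ : 0 < δ) :
    ∃ D : ℕ, ∀ s s' : Fin (k + 1) → ℕ, (∀ i j, i < j → s i + D ≤ s j) →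
      (∀ i j, i < j → s' i + D ≤ s' j) → (∀ i, s i ≤ s' i + L ∧ s' i ≤ s i + L) →
      ‖∫ x, ∏ i, (f i ((⇑T)^[s i] x) * (starRingEnd ℂ) (f i ((⇑T)^[s' i] x))) ∂μ
        - ∏ i, cor μ T (f i) (s i) (s' i)‖ < δ := by
  classical
  let G : (Fin (k + 1) → Fin (L + 1) × Fin (L + 1)) → Fin (k + 1) → X → ℂ := fun p i x =>
    f i ((⇑T)^[((p i).1 : ℕ)] x) * (starRingEnd ℂ) (f i ((⇑T)^[((p i).2 : ℕ)] x))
  have hG : ∀ p i, BM (G p i) := fun p i => BM.mul (BM.iter (hf i) T _) (BM.conj (BM.iter (hf i) T _))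
  choose N hN using fun p => factor_unif hT hfact (G p) (hG p) hδ
  refine ⟨Finset.univ.sup N, fun s s' hs hs' hss => ?_⟩
  let p : Fin (k + 1) → Fin (L + 1) × Fin (L + 1) := fun i =>
    (⟨s i - min (s i) (s' i), by have := hss i; omega⟩,
      ⟨s' i - min (s i) (s' i), by have := hss i; omega⟩)
  have hNp : N p ≤ Finset.univ.sup N := Finset.le_sup (Finset.mem_univ p)
  have h1 := hN p (fun i => min (s i) (s' i)) (by
    intro i j hij
    have := hs i j hij
    have := hs' i j hij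
    omega)
  have e1 : ∀ i x, G p i ((⇑T)^[min (s i) (s' i)] x)
      = f i ((⇑T)^[s i] x) * (starRingEnd ℂ) (f i ((⇑T)^[s' i] x)) := by
    intro i x
    simp only [G, p]
    rw [← Function.iterate_add_apply, ← Function.iterate_add_apply,
      Nat.sub_add_cancel (min_le_left _ _), Nat.sub_add_cancel (min_le_right _ _)]
  have e2 : ∀ i, ∫ x, G p i x ∂μ = cor μ T (f i) (s i) (s' i) := by
    intro i
    have := cor_add hT (f i) (s i - min (s i) (s' i)) (s' i - min (s i) (s' i))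
      (min (s i) (s' i))
    rw [Nat.sub_add_cancel (min_le_left _ _), Nat.sub_add_cancel (min_le_right _ _)] at this
    rw [this]
    rfl
  simp only [e1, e2] at h1
  exact h1

/-- Bombieri's inequality. -/
theorem bombieri {E : Type*} [NormedAddCommGroup E] [InnerProductSpace ℂ E] {ι : Type*}
    (F : Finset ι) (g : ι → E) (x : E) (B : ℝ) (hB0 : 0 ≤ B)
    (hB : ∀ s ∈ F, ∑ s' ∈ F, ‖inner ℂ (g s) (g s')‖ ≤ B) :
    ∑ s ∈ F, ‖inner ℂ (g s) x‖ ^ 2 ≤ B * ‖x‖ ^ 2 := by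
  set c : ι → ℂ := fun s => inner ℂ (g s) x with hc
  set w : E := ∑ s ∈ F, c s • g s with hw
  set S : ℝ := ∑ s ∈ F, ‖c s‖ ^ 2 with hS
  have hS0 : 0 ≤ S := Finset.sum_nonneg (fun _ _ => by positivity)
  have h1 : inner ℂ w x = (S : ℂ) := by
    rw [hw, sum_inner, hS]
    push_cast
    refine Finset.sum_congr rfl (fun s _ => ?_)
    rw [inner_smul_left]
    change (starRingEnd ℂ) (c s) * c s = _
    rw [mul_comm, Complex.mul_conj, Complex.normSq_eq_norm_sq]
    push_cast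
    rfl
  have h2 : S ≤ ‖w‖ * ‖x‖ := by
    have := norm_inner_le_norm (𝕜 := ℂ) w x
    rw [h1, Complex.norm_real, Real.norm_eq_abs, abs_of_nonneg hS0] at this
    exact this
  have h3 : ‖w‖ ^ 2 ≤ B * S := by
    have h4 : ‖w‖ ^ 2 = ‖inner ℂ w w‖ := by
      rw [inner_self_eq_norm_sq_to_K]
      simp
    rw [h4]
    have h5 : inner ℂ w w = ∑ s ∈ F, ∑ s' ∈ F,
        (starRingEnd ℂ) (c s) * (c s' * inner ℂ (g s) (g s')) := by
      conv_lhs => rw [hw]
      rw [sum_inner]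
      refine Finset.sum_congr rfl (fun s _ => ?_)
      rw [inner_sum]
      refine Finset.sum_congr rfl (fun s' _ => ?_)
      rw [inner_smul_left, inner_smul_right]
    rw [h5]
    calc ‖∑ s ∈ F, ∑ s' ∈ F, (starRingEnd ℂ) (c s) * (c s' * inner ℂ (g s) (g s'))‖
        ≤ ∑ s ∈ F, ∑ s' ∈ F, ‖c s‖ * (‖c s'‖ * ‖inner ℂ (g s) (g s')‖) := by
          refine (norm_sum_le _ _).trans (Finset.sum_le_sum (fun s _ => ?_))
          refine (norm_sum_le _ _).trans (Finset.sum_le_sum (fun s' _ => ?_))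
          rw [norm_mul, norm_mul, RCLike.norm_conj]
      _ ≤ ∑ s ∈ F, ∑ s' ∈ F, (1 / 2 * (‖c s‖ ^ 2 * ‖inner ℂ (g s) (g s')‖)
            + 1 / 2 * (‖c s'‖ ^ 2 * ‖inner ℂ (g s') (g s)‖)) := by
          refine Finset.sum_le_sum (fun s _ => Finset.sum_le_sum (fun s' _ => ?_))
          have e : ‖inner ℂ (g s') (g s)‖ = ‖inner ℂ (g s) (g s')‖ := norm_inner_symm _ _
          rw [e]
          nlinarith [sq_nonneg (‖c s‖ - ‖c s'‖), norm_nonneg (inner ℂ (g s) (g s')),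
            mul_nonneg (sq_nonneg (‖c s‖ - ‖c s'‖)) (norm_nonneg (inner ℂ (g s) (g s')))]
      _ = ∑ s ∈ F, ‖c s‖ ^ 2 * ∑ s' ∈ F, ‖inner ℂ (g s) (g s')‖ := by
          simp only [Finset.sum_add_distrib, ← Finset.mul_sum]
          rw [Finset.sum_comm (f := fun s s' => ‖c s'‖ ^ 2 * ‖inner ℂ (g s') (g s)‖)]
          simp only [Finset.mul_sum]
          rw [← Finset.sum_add_distrib]
          refine Finset.sum_congr rfl (fun s _ => ?_)
          rw [← Finset.sum_add_distrib]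
          refine Finset.sum_congr rfl (fun s' _ => ?_)
          ring
      _ ≤ ∑ s ∈ F, ‖c s‖ ^ 2 * B :=
          Finset.sum_le_sum (fun s hs => mul_le_mul_of_nonneg_left (hB s hs) (by positivity))
      _ = B * S := by rw [← Finset.sum_mul, mul_comm]
  rcases hS0.eq_or_lt with h | h
  · rw [← h]
    positivity
  · have h6 : S ^ 2 ≤ (B * S) * ‖x‖ ^ 2 := by
      calc S ^ 2 ≤ (‖w‖ * ‖x‖) ^ 2 := pow_le_pow_left₀ hS0 h2 2
        _ = ‖w‖ ^ 2 * ‖x‖ ^ 2 := by ring
        _ ≤ (B * S) * ‖x‖ ^ 2 := mul_le_mul_of_nonneg_right h3 (by positivity)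
    have h7 : S * S ≤ S * (B * ‖x‖ ^ 2) := by nlinarith
    exact le_of_mul_le_mul_left h7 h

end Pool.Agent.W735.Rok
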