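import Pool.Agent.W735.Rok.Uniform

set_option autoImplicit false
open MeasureTheory Filter Topology
open Pool.Agent.H716R2

namespace Pool.Agent.W735.Rok

variable {X : Type*} [MeasurableSpace X]

theorem factSet_pred {μ : Measure X} [IsProbabilityMeasure μ] {T : X ≃ᵐ X} {m : ℕ}
    (h : FactSet μ T (m + 1)) : FactSet μ T m := by
  intro s hs A hA
  let s' : ℕ → Fin (m + 1) → ℕ := fun n => Fin.snoc (s n) (∑ i, s n i + n)
  let A' : Fin (m + 1) → Set X := Fin.snoc A Set.univ
  have hs' : Spread s' := by
    intro N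
    filter_upwards [hs N, eventually_ge_atTop N] with n hn hnN
    intro i j hij
    induction j using Fin.lastCases with
    | last =>
      induction i using Fin.lastCases with
      | last => exact absurd hij (lt_irrefl _)
      | cast i =>
        simp only [s', Fin.snoc_castSucc, Fin.snoc_last]
        have := Finset.single_le_sum (f := fun i => s n i) (fun _ _ => Nat.zero_le _)
          (Finset.mem_univ i)
        omega
    | cast j =>
      induction i using Fin.lastCases with
      | last => exact absurd hij (not_lt.2 (Fin.le_last _))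
      | cast i =>
        simp only [s', Fin.snoc_castSucc]
        exact hn i j (Fin.castSucc_lt_castSucc_iff.1 hij)
  have hA' : ∀ i, MeasurableSet (A' i) := by
    intro i
    induction i using Fin.lastCases with
    | last => simp [A']
    | cast i => simpa [A'] using hA i
  have h1 := h s' hs' A' hA'
  have e1 : ∏ i, μ.real (A' i) = ∏ i, μ.real (A i) := by
    rw [Fin.prod_univ_castSucc]
    simp [A']
  have e2 : ∀ n, (⋂ i, (⇑T)^[s' n i] ⁻¹' A' i) = ⋂ i, (⇑T)^[s n i] ⁻¹' A i := by
    intro n
    ext x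
    simp only [Set.mem_iInter]
    constructor
    · intro hx i
      have := hx i.castSucc
      simpa [s', A'] using this
    · intro hx i
      induction i using Fin.lastCases with
      | last => simp [A']
      | cast i => simpa [s', A'] using hx i
  rw [e1] at h1
  simpa only [e2] using h1

theorem factSet_le {μ : Measure X} [IsProbabilityMeasure μ] {T : X ≃ᵐ X} {m m' : ℕ}
    (h : FactSet μ T m) (hm : m' ≤ m) : FactSet μ T m' := by
  induction m with
  | zero =>
    obtain rfl : m' = 0 := by omega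
    exact h
  | succ m ih =>
    rcases Nat.lt_or_ge m' (m + 1) with h1 | h1
    · exact ih (factSet_pred h) (by omega)
    · obtain rfl : m' = m + 1 := by omega
      exact h

/-- Asymptotic factorisation along unsorted times whose mutual distances tend to infinity. -/
theorem fact_finset {μ : Measure X} [IsProbabilityMeasure μ] {T : X ≃ᵐ X}
    (hT : MeasurePreserving T μ μ) {m : ℕ} (hfact : FactSet μ T m) {ι : Type*} [DecidableEq ι]
    (S : Finset ι) (hS : S.card ≤ m) (h : ι → X → ℂ) (hB : ∀ i, BM (h i)) (t : ℕ → ι → ℕ)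
    (hfar : ∀ i ∈ S, ∀ j ∈ S, i ≠ j →
      Tendsto (fun n => |(t n i : ℤ) - t n j|) atTop atTop) :
    Tendsto (fun n => ∫ x, ∏ i ∈ S, h i ((⇑T)^[t n i] x) ∂μ) atTop
      (𝓝 (∏ i ∈ S, ∫ x, h i x ∂μ)) := by
  have hf' : FactSet μ T S.card := factSet_le hfact hS
  let e : Fin S.card ≃ S := S.equivFin.symm
  rw [Metric.tendsto_atTop]
  intro δ hδ
  choose N hN using fun σ : Equiv.Perm (Fin S.card) =>
    factor_unif hT hf' (fun i => h (e (σ i) : ι)) (fun i => hB _) hδ
  have hev : ∀ᶠ n in atTop, ∀ i ∈ S, ∀ j ∈ S, i ≠ j →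
      ((Finset.univ.sup N : ℕ) : ℤ) ≤ |(t n i : ℤ) - t n j| := by
    rw [eventually_all_finset]
    intro i hi
    rw [eventually_all_finset]
    intro j hj
    by_cases hij : i = j
    · exact Eventually.of_forall (fun n hne => absurd hij hne)
    · filter_upwards [(hfar i hi j hj hij).eventually_ge_atTop ((Finset.univ.sup N : ℕ) : ℤ)]
        with n hn _
      exact hn
  obtain ⟨n0, hn0⟩ := eventually_atTop.1 hev
  refine ⟨n0, fun n hn => ?_⟩
  have hsep := hn0 n hn
  set u : Fin S.card → ℕ := fun i => t n (e i : ι) with hu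
  set σ : Equiv.Perm (Fin S.card) := Tuple.sort u with hσ
  have hmono : Monotone (u ∘ σ) := Tuple.monotone_sort u
  have hNσ : N σ ≤ Finset.univ.sup N := Finset.le_sup (Finset.mem_univ σ)
  have h1 := hN σ (fun i => u (σ i)) (by
    intro i j hij
    have h2 : u (σ i) ≤ u (σ j) := hmono hij.le
    have h3 := hsep (e (σ i)) (e (σ i)).2 (e (σ j)) (e (σ j)).2 (by
      intro h4
      have h5 : σ i = σ j := e.injective (Subtype.ext h4)
      exact hij.ne (σ.injective h5))
    have h6 : (N σ : ℤ) ≤ |(u (σ i) : ℤ) - u (σ j)| := le_trans (by exact_mod_cast hNσ) h3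
    rw [abs_sub_comm, abs_of_nonneg (by omega)] at h6
    omega)
  have e1 : ∀ x, ∏ i, h (e (σ i) : ι) ((⇑T)^[u (σ i)] x) = ∏ i ∈ S, h i ((⇑T)^[t n i] x) := by
    intro x
    rw [Equiv.prod_comp σ (fun i => h (e i : ι) ((⇑T)^[u i] x))]
    rw [Equiv.prod_comp e (fun i : S => h (i : ι) ((⇑T)^[t n i] x))]
    exact Finset.prod_coe_sort S (fun i => h i ((⇑T)^[t n i] x))
  have e2 : ∏ i, ∫ x, h (e (σ i) : ι) x ∂μ = ∏ i ∈ S, ∫ x, h i x ∂μ := by
    rw [Equiv.prod_comp σ (fun i => ∫ x, h (e i : ι) x ∂μ)]
    rw [Equiv.prod_comp e (fun i : S => ∫ x, h (i : ι) x ∂μ)]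
    exact Finset.prod_coe_sort S (fun i => ∫ x, h i x ∂μ)
  rw [e2] at h1
  simp only [e1] at h1
  rw [dist_eq_norm]
  exact h1

theorem dichotomy (x : ℕ → ℤ) : ∃ φ : ℕ → ℕ, StrictMono φ ∧
    ((∃ c, ∀ n, x (φ n) = c) ∨ Tendsto (fun n => |x (φ n)|) atTop atTop) := by
  by_cases h : Tendsto (fun n => |x n|) atTop atTop
  · exact ⟨id, strictMono_id, Or.inr h⟩
  · rw [tendsto_atTop] at h
    push Not at h
    obtain ⟨b, hb⟩ := h
    have h2 : ∃ c, ∃ᶠ n in atTop, x n = c := by
      by_contra hcon
      push Not at hcon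
      have h3 : ∀ᶠ n in atTop, ∀ c ∈ Finset.Icc (-b) b, x n ≠ c := by
        rw [eventually_all_finset]
        intro c _
        exact hcon c
      obtain ⟨n, hn1, hn2⟩ := (hb.and_eventually h3).exists
      refine hn2 (x n) ?_ rfl
      rw [Finset.mem_Icc]
      have hn3 : |x n| < b := hn1
      rw [abs_lt] at hn3
      omega
    obtain ⟨c, hc⟩ := h2
    obtain ⟨φ, hφ, hφc⟩ := extraction_of_frequently_atTop hc
    exact ⟨φ, hφ, Or.inl ⟨c, hφc⟩⟩

theorem dichotomy_finset {κ : Type*} (Q : Finset κ) (x : κ → ℕ → ℤ) :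
    ∃ φ : ℕ → ℕ, StrictMono φ ∧ ∀ q ∈ Q,
      ((∃ c, ∀ n, x q (φ n) = c) ∨ Tendsto (fun n => |x q (φ n)|) atTop atTop) := by
  classical
  induction Q using Finset.induction_on with
  | empty => exact ⟨id, strictMono_id, by simp⟩
  | insert a Q ha ih =>
    obtain ⟨φ, hφ, h1⟩ := ih
    obtain ⟨ψ, hψ, h2⟩ := dichotomy (fun n => x a (φ n))
    refine ⟨fun n => φ (ψ n), hφ.comp hψ, fun q hq => ?_⟩
    rw [Finset.mem_insert] at hq
    rcases hq with rfl | hq
    · exact h2
    · rcases h1 q hq with ⟨c, hc⟩ | h3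
      · exact Or.inl ⟨c, fun n => hc _⟩
      · exact Or.inr (h3.comp hψ.tendsto_atTop)

/-- If a function of mean zero is evaluated far away from all others, the correlation tends to
zero along a subsequence, whatever the mutual position of the other times. -/
theorem zero_sub {μ : Measure X} [IsProbabilityMeasure μ] {T : X ≃ᵐ X}
    (hT : MeasurePreserving T μ μ) {m : ℕ} (hfact : FactSet μ T m) {ι : Type*} [DecidableEq ι]
    (c : ℕ) (hc : c ≤ m) :
    ∀ (S : Finset ι), S.card = c → ∀ (h : ι → X → ℂ), (∀ i, BM (h i)) → ∀ (t : ℕ → ι → ℕ)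
      (i0 : ι), i0 ∈ S → ∫ x, h i0 x ∂μ = 0 →
      (∀ i ∈ S, i ≠ i0 → Tendsto (fun n => |(t n i : ℤ) - t n i0|) atTop atTop) →
      ∃ φ : ℕ → ℕ, StrictMono φ ∧
        Tendsto (fun n => ∫ x, ∏ i ∈ S, h i ((⇑T)^[t (φ n) i] x) ∂μ) atTop (𝓝 0) := by
  induction c with
  | zero =>
    intro S hS h _ t i0 hi0
    rw [Finset.card_eq_zero] at hS
    subst hS
    simp at hi0
  | succ c ih =>
    intro S hS h hB t i0 hi0 h0 hfar
    obtain ⟨φ, hφ, hd⟩ := dichotomy_finset (S ×ˢ S) (fun p n => (t n p.1 : ℤ) - t n p.2)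
    by_cases hall : ∀ i ∈ S, ∀ j ∈ S, i ≠ j →
        Tendsto (fun n => |(t (φ n) i : ℤ) - t (φ n) j|) atTop atTop
    · refine ⟨φ, hφ, ?_⟩
      have h1 := fact_finset hT hfact S (by omega) h hB (fun n => t (φ n)) hall
      rw [Finset.prod_eq_zero hi0 h0] at h1
      exact h1
    · push Not at hall
      obtain ⟨i1, hi1, i2, hi2, hne, hnot⟩ := hall
      have hconst : ∃ c0 : ℤ, ∀ n, (t (φ n) i1 : ℤ) - t (φ n) i2 = c0 := by
        rcases hd (i1, i2) (Finset.mem_product.2 ⟨hi1, hi2⟩) with h1 | h1
        · exact h1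
        · exact absurd h1 hnot
      obtain ⟨c0, hc0⟩ := hconst
      have hi20 : i2 ≠ i0 := by
        rintro rfl
        exact hnot ((hfar i1 hi1 hne).comp hφ.tendsto_atTop)
      have hi10 : i1 ≠ i0 := by
        rintro rfl
        have h1 := (hfar i2 hi2 hne.symm).comp hφ.tendsto_atTop
        refine hnot (h1.congr (fun n => ?_))
        exact abs_sub_comm _ _
      set p : ℕ := c0.toNat with hp
      set q : ℕ := (-c0).toNat with hq
      set τ : ℕ → ℕ := fun n => t (φ n) i1 - p with hτ
      have hτ1 : ∀ n, t (φ n) i1 = p + τ n := by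
        intro n
        have := hc0 n
        simp only [hτ]
        omega
      have hτ2 : ∀ n, t (φ n) i2 = q + τ n := by
        intro n
        have := hc0 n
        simp only [hτ]
        omega
      set h' : ι → X → ℂ := Function.update h i1
        (fun x => h i1 ((⇑T)^[p] x) * h i2 ((⇑T)^[q] x)) with hh'
      set t' : ℕ → ι → ℕ := fun n => Function.update (t (φ n)) i1 (τ n) with ht'
      have hB' : ∀ i, BM (h' i) := by
        intro i
        by_cases hi : i = i1
        · subst hi
          simp only [hh', Function.update_self]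
          exact BM.mul (BM.iter (hB _) T _) (BM.iter (hB _) T _)
        · simp only [hh', Function.update_of_ne hi]
          exact hB i
      have hprod : ∀ n x, ∏ i ∈ S, h i ((⇑T)^[t (φ n) i] x)
          = ∏ i ∈ S.erase i2, h' i ((⇑T)^[t' n i] x) := by
        intro n x
        have hi1' : i1 ∈ S.erase i2 := Finset.mem_erase.2 ⟨hne, hi1⟩
        rw [← Finset.mul_prod_erase _ _ hi2, ← Finset.mul_prod_erase _ _ hi1',
          ← Finset.mul_prod_erase _ (fun i => h' i ((⇑T)^[t' n i] x)) hi1', ← mul_assoc]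
        congr 1
        · simp only [hh', ht', Function.update_self]
          rw [← Function.iterate_add_apply, ← Function.iterate_add_apply, ← hτ1, ← hτ2,
            mul_comm]
        · refine Finset.prod_congr rfl (fun i hi => ?_)
          have hi' : i ≠ i1 := Finset.ne_of_mem_erase hi
          simp only [hh', ht', Function.update_of_ne hi']
      have hfar' : ∀ i ∈ S.erase i2, i ≠ i0 →
          Tendsto (fun n => |(t' n i : ℤ) - t' n i0|) atTop atTop := by
        intro i hi hii0
        have h1 : Tendsto (fun n => |(t (φ n) i : ℤ) - t (φ n) i0|) atTop atTop :=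
          (hfar i (Finset.mem_of_mem_erase hi) hii0).comp hφ.tendsto_atTop
        have e0 : ∀ n, t' n i0 = t (φ n) i0 := fun n => by
          simp only [ht', Function.update_of_ne hi10.symm]
        by_cases hi' : i = i1
        · subst hi'
          refine tendsto_atTop_mono (f := fun n => |(t (φ n) i : ℤ) - t (φ n) i0| - p) ?_ ?_
          · intro n
            rw [e0 n]
            simp only [ht', Function.update_self]
            have h2 := hτ1 n
            have h3 : (t (φ n) i : ℤ) - t (φ n) i0 = ((τ n : ℤ) - t (φ n) i0) + p := by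
              rw [h2]; push_cast; ring
            rw [h3]
            have h4 := abs_add_le ((τ n : ℤ) - t (φ n) i0) (p : ℤ)
            rw [abs_of_nonneg (show (0 : ℤ) ≤ (p : ℤ) by positivity)] at h4
            linarith
          · exact tendsto_atTop_add_const_right _ (-(p : ℤ)) h1
        · refine h1.congr (fun n => ?_)
          rw [e0 n]
          simp only [ht', Function.update_of_ne hi']
      obtain ⟨ψ, hψ, h5⟩ := ih (by omega) (S.erase i2)
        (by rw [Finset.card_erase_of_mem hi2, hS]; rfl) h' hB' t' i0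
        (Finset.mem_erase.2 ⟨hi20.symm, hi0⟩)
        (by simp only [hh', Function.update_of_ne hi10.symm]; exact h0) hfar'
      refine ⟨fun n => φ (ψ n), hφ.comp hψ, ?_⟩
      simp only [hprod]
      exact h5

end Pool.Agent.W735.Rok
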