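import Pool.Agent.W735.Rok.Main

set_option autoImplicit false
open MeasureTheory Filter Topology
open Pool.Agent.H716R2

namespace Pool.Agent.W735.Rok

/-- Every finite set of integer vectors has an `R`-separated subset that is `R`-dense in it. -/
theorem separated_subset {r : ℕ} (F : Finset (Fin r → ℕ)) (R : ℕ) :
    ∃ F' ⊆ F, (∀ s ∈ F', ∀ s' ∈ F', s ≠ s' → ∃ i, s i + R < s' i ∨ s' i + R < s i) ∧
      ∀ s ∈ F, ∃ s' ∈ F', ∀ i, s i ≤ s' i + R ∧ s' i ≤ s i + R := by
  classical
  let 𝒮 : Finset (Finset (Fin r → ℕ)) := F.powerset.filter (fun F' =>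
    ∀ s ∈ F', ∀ s' ∈ F', s ≠ s' → ∃ i, s i + R < s' i ∨ s' i + R < s i)
  have hne : 𝒮.Nonempty := ⟨∅, by simp [𝒮]⟩
  obtain ⟨F', hF', hmax⟩ := Finset.exists_max_image 𝒮 Finset.card hne
  have h1 := Finset.mem_filter.1 hF'
  refine ⟨F', Finset.mem_powerset.1 h1.1, h1.2, fun s hs => ?_⟩
  by_contra hcon
  push Not at hcon
  have hsF' : s ∉ F' := by
    intro h
    obtain ⟨i, hi⟩ := hcon s h
    have := hi (by omega)
    omega
  have hsep : ∀ t ∈ F', ∃ i, s i + R < t i ∨ t i + R < s i := by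
    intro t ht
    obtain ⟨i, hi⟩ := hcon t ht
    refine ⟨i, ?_⟩
    by_contra h
    push Not at h
    have := hi (by omega)
    omega
  have h2 : insert s F' ∈ 𝒮 := by
    refine Finset.mem_filter.2 ⟨Finset.mem_powerset.2 (Finset.insert_subset hs
      (Finset.mem_powerset.1 h1.1)), ?_⟩
    intro a ha b hb hab
    rw [Finset.mem_insert] at ha hb
    rcases ha with rfl | ha
    · rcases hb with rfl | hb
      · exact absurd rfl hab
      · exact hsep b hb
    · rcases hb with rfl | hb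
      · obtain ⟨i, hi⟩ := hsep a ha
        exact ⟨i, hi.symm⟩
      · exact h1.2 a ha b hb hab
  have h3 := hmax _ h2
  rw [Finset.card_insert_of_notMem hsF'] at h3
  omega

theorem card_of_dense {r : ℕ} (F F' : Finset (Fin r → ℕ)) (R : ℕ)
    (h : ∀ s ∈ F, ∃ s' ∈ F', ∀ i, s i ≤ s' i + R ∧ s' i ≤ s i + R) :
    F.card ≤ F'.card * (2 * R + 1) ^ r := by
  classical
  have h1 : F ⊆ F'.biUnion (fun s' => Fintype.piFinset (fun i =>
      Finset.Icc (s' i - R) (s' i + R))) := by
    intro s hs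
    obtain ⟨s', hs', h2⟩ := h s hs
    rw [Finset.mem_biUnion]
    refine ⟨s', hs', ?_⟩
    rw [Fintype.mem_piFinset]
    intro i
    rw [Finset.mem_Icc]
    have := h2 i
    omega
  refine (Finset.card_le_card h1).trans ?_
  refine (Finset.card_biUnion_le_card_mul _ _ ((2 * R + 1) ^ r) (fun s' _ => ?_))
  rw [Fintype.card_piFinset]
  calc ∏ i, (Finset.Icc (s' i - R) (s' i + R)).card ≤ ∏ _i : Fin r, (2 * R + 1) := by
        refine Finset.prod_le_prod' (fun i _ => ?_)
        rw [Nat.card_Icc]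
        omega
    _ = (2 * R + 1) ^ r := by simp

end Pool.Agent.W735.Rok
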