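import Pool.Agent.W735.Rok.Cluster

set_option autoImplicit false
open MeasureTheory Filter Topology
open Pool.Agent.H716R2

namespace Pool.Agent.W735.Rok

variable {X : Type*} [MeasurableSpace X]

theorem not_tendsto_const {x : ℕ → ℤ} {c : ℤ} (h : ∀ n, x n = c) :
    ¬ Tendsto (fun n => |x n|) atTop atTop := by
  intro h1
  obtain ⟨n, hn⟩ := (h1.eventually_ge_atTop (|c| + 1)).exists
  rw [h n] at hn
  omega

/-- Products along different time vectors are nearly orthogonal, whatever their mutual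
position. -/
theorem offdiag {μ : Measure X} [IsProbabilityMeasure μ] {T : X ≃ᵐ X}
    (hT : MeasurePreserving T μ μ) {m r : ℕ} (hfact : FactSet μ T m) (hr : 1 ≤ r)
    (h2r : 2 * r ≤ m) (f : Fin r → X → ℂ) (hf : ∀ i, BM (f i)) (h0 : ∀ i, ∫ x, f i x ∂μ = 0)
    {δ : ℝ} (hδ : 0 < δ) :
    ∃ R D : ℕ, ∀ n n' : Fin r → ℕ, (∀ i j, i < j → n i + D ≤ n j) →
      (∀ i j, i < j → n' i + D ≤ n' j) → (∃ i, n i + R < n' i ∨ n' i + R < n i) →
      ‖∫ x, ∏ i, (f i ((⇑T)^[n i] x) * (starRingEnd ℂ) (f i ((⇑T)^[n' i] x))) ∂μ‖ < δ := by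
  classical
  set v : Fin r → ℝ := fun i => ∫ x, ‖f i x‖ ^ 2 ∂μ with hv
  have hv0 : ∀ i, 0 ≤ v i := fun i => integral_nonneg (fun x => by positivity)
  set V' : ℝ := ∏ i, (1 + v i) with hV'
  have hV'0 : 0 ≤ V' := Finset.prod_nonneg (fun i _ => by have := hv0 i; linarith)
  have hδ' : 0 < δ / (2 * (V' + 1)) := by positivity
  have hfact2 : FactSet μ T (1 + 1) := factSet_le hfact (by omega)
  choose R' hR' using fun i => cor_decay le_rfl hT hfact2 (hf i) (h0 i) hδ'
  refine ⟨Finset.univ.sup R', ?_⟩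
  by_contra hcon
  push Not at hcon
  choose a b ha hb hsep hbig using hcon
  obtain ⟨φ, hφ, hd⟩ := dichotomy_finset (Finset.univ : Finset (Fin r × Fin r))
    (fun p n => (a n p.1 : ℤ) - b n p.2)
  by_cases hcase : ∃ i, ∀ j, Tendsto (fun n => |(a (φ n) i : ℤ) - b (φ n) j|) atTop atTop
  · obtain ⟨i, hi⟩ := hcase
    set h : Fin r ⊕ Fin r → X → ℂ := Sum.elim f (fun i x => (starRingEnd ℂ) (f i x)) with hh
    set t : ℕ → Fin r ⊕ Fin r → ℕ := fun n => Sum.elim (a (φ n)) (b (φ n)) with ht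
    have hB : ∀ i, BM (h i) := by
      rintro (i | i)
      · exact hf i
      · exact BM.conj (hf i)
    have hgap : ∀ i' : Fin r, i' ≠ i →
        Tendsto (fun n => |(a (φ n) i' : ℤ) - a (φ n) i|) atTop atTop := by
      intro i' hi'
      have h1 : Tendsto (fun n : ℕ => (n : ℤ)) atTop atTop := tendsto_natCast_atTop_atTop
      refine tendsto_atTop_mono (fun n => ?_) h1
      have h2 : n ≤ φ n := hφ.id_le n
      rcases lt_or_gt_of_ne hi' with h3 | h3
      · have := ha (φ n) _ _ h3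
        rw [abs_sub_comm, abs_of_nonneg (by omega)]
        omega
      · have := ha (φ n) _ _ h3
        rw [abs_of_nonneg (by omega)]
        omega
    obtain ⟨ψ, hψ, h1⟩ := zero_sub hT hfact (2 * r) h2r Finset.univ
      (by simp [two_mul]) h hB t (Sum.inl i) (Finset.mem_univ _) (h0 i) (by
        rintro (i' | j) _ hne
        · exact hgap i' (fun h => hne (by rw [h]))
        · refine (hi j).congr (fun n => ?_)
          exact abs_sub_comm _ _)
    have h2 : ∀ n, ‖∫ x, ∏ i, h i ((⇑T)^[t (ψ n) i] x) ∂μ‖ ≥ δ := by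
      intro n
      have e : ∀ x, ∏ i, h i ((⇑T)^[t (ψ n) i] x) = ∏ i, (f i ((⇑T)^[a (φ (ψ n)) i] x)
          * (starRingEnd ℂ) (f i ((⇑T)^[b (φ (ψ n)) i] x))) := by
        intro x
        rw [Fintype.prod_sum_type, Finset.prod_mul_distrib]
        rfl
      simp only [e]
      exact hbig (φ (ψ n))
    have h3 := h1.norm
    rw [norm_zero] at h3
    have h4 := ge_of_tendsto h3 (Eventually.of_forall h2)
    linarith
  · push Not at hcase
    choose J hJ using hcase
    have hc : ∀ i, ∃ c : ℤ, ∀ n, (a (φ n) i : ℤ) - b (φ n) (J i) = c := by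
      intro i
      rcases hd (i, J i) (Finset.mem_univ _) with h1 | h1
      · exact h1
      · exact absurd h1 (hJ i)
    choose c hc using hc
    have hJm : StrictMono J := by
      intro i i' hii'
      by_contra hcon
      rw [not_lt] at hcon
      set n : ℕ := (c i').natAbs + (c i).natAbs + 1 with hn
      have h1 : n ≤ φ n := hφ.id_le n
      have h2 := ha (φ n) _ _ hii'
      have h3 : b (φ n) (J i') ≤ b (φ n) (J i) := by
        rcases hcon.lt_or_eq with h4 | h4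
        · have := hb (φ n) _ _ h4
          omega
        · rw [h4]
      have h5 := hc i n
      have h6 := hc i' n
      omega
    have hJid : J = id := le_antisymm hJm.le_id hJm.id_le
    subst hJid
    simp only [id] at hc
    obtain ⟨r', rfl⟩ : ∃ r', r = r' + 1 := ⟨r - 1, by omega⟩
    obtain ⟨D, hD⟩ := gram hT (factSet_le hfact (by omega)) f hf
      (∑ i, (c i).natAbs) (half_pos hδ)
    have hle : D ≤ φ D := hφ.id_le D
    have h1 := hD (a (φ D)) (b (φ D))
      (fun i j hij => by have := ha (φ D) i j hij; omega)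
      (fun i j hij => by have := hb (φ D) i j hij; omega)
      (fun i => by
        have h2 := hc i D
        have h3 : (c i).natAbs ≤ ∑ i, (c i).natAbs :=
          Finset.single_le_sum (f := fun i => (c i).natAbs) (fun _ _ => Nat.zero_le _)
            (Finset.mem_univ i)
        omega)
    obtain ⟨j, hj⟩ := hsep (φ D)
    have hRj : R' j ≤ Finset.univ.sup R' := Finset.le_sup (Finset.mem_univ _)
    have h2 : ‖cor μ T (f j) (a (φ D) j) (b (φ D) j)‖ < δ / (2 * (V' + 1)) :=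
      hR' j _ _ (by omega)
    have h3 : ‖∏ i, cor μ T (f i) (a (φ D) i) (b (φ D) i)‖ ≤ δ / (2 * (V' + 1)) * V' := by
      rw [norm_prod, hV', ← Finset.mul_prod_erase _ _ (Finset.mem_univ j),
        ← Finset.mul_prod_erase _ (fun i => (1 + v i)) (Finset.mem_univ j),
        ← mul_assoc]
      refine mul_le_mul ?_ ?_ (Finset.prod_nonneg (fun i _ => norm_nonneg _)) ?_
      · have h4 := hv0 j
        have h5 : V' = (1 + v j) * ∏ i ∈ Finset.univ.erase j, (1 + v i) :=
          (Finset.mul_prod_erase _ (fun i => (1 + v i)) (Finset.mem_univ j)).symm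
        rw [← h5]
        nlinarith
      · refine Finset.prod_le_prod (fun i _ => norm_nonneg _) (fun i _ => ?_)
        have := cor_le hT (hf i) (a (φ D) i) (b (φ D) i)
        change _ ≤ v i at this
        linarith
      · have h4 := hv0 j
        have h5 : V' = (1 + v j) * ∏ i ∈ Finset.univ.erase j, (1 + v i) :=
          (Finset.mul_prod_erase _ (fun i => (1 + v i)) (Finset.mem_univ j)).symm
        rw [← h5]
        positivity
    have h4 : δ / (2 * (V' + 1)) * V' ≤ δ / 2 := by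
      rw [div_mul_eq_mul_div, div_le_div_iff₀ (by positivity) (by positivity)]
      nlinarith
    have h5 := norm_add_le (∫ x, ∏ i, (f i ((⇑T)^[a (φ D) i] x)
        * (starRingEnd ℂ) (f i ((⇑T)^[b (φ D) i] x))) ∂μ
        - ∏ i, cor μ T (f i) (a (φ D) i) (b (φ D) i))
        (∏ i, cor μ T (f i) (a (φ D) i) (b (φ D) i))
    rw [sub_add_cancel] at h5
    have h6 := hbig (φ D)
    linarith

/-- Asymptotic Bessel inequality for products along arbitrary time vectors with large gaps. -/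
theorem bessel_free {μ : Measure X} [IsProbabilityMeasure μ] {T : X ≃ᵐ X}
    (hT : MeasurePreserving T μ μ) {m r : ℕ} (hfact : FactSet μ T m) (hr : 1 ≤ r)
    (h2r : 2 * r ≤ m) (f : Fin r → X → ℂ) (hf : ∀ i, BM (f i)) (h0 : ∀ i, ∫ x, f i x ∂μ = 0)
    (M : ℕ) {η : ℝ} (hη : 0 < η) :
    ∃ R D : ℕ, ∀ G : X → ℂ, MemLp G 2 μ → ∀ F : Finset (Fin r → ℕ),
      F.card ≤ M →
      (∀ s ∈ F, ∀ i j, i < j → s i + D ≤ s j) →
      (∀ s ∈ F, ∀ s' ∈ F, s ≠ s' → ∃ i, s i + R < s' i ∨ s' i + R < s i) →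
      ∑ s ∈ F, ‖∫ x, G x * ∏ i, f i ((⇑T)^[s i] x) ∂μ‖ ^ 2
        ≤ (∏ i, ∫ x, ‖f i x‖ ^ 2 ∂μ + η) * ∫ x, ‖G x‖ ^ 2 ∂μ := by
  classical
  set v : Fin r → ℝ := fun i => ∫ x, ‖f i x‖ ^ 2 ∂μ with hv
  have hv0 : ∀ i, 0 ≤ v i := fun i => integral_nonneg (fun x => by positivity)
  set V : ℝ := ∏ i, v i with hV
  have hV0 : 0 ≤ V := Finset.prod_nonneg (fun i _ => hv0 _)
  set δ : ℝ := η / (1 + M) with hδdef
  have hδ : 0 < δ := by positivity
  have hδη : δ * (1 + M) = η := by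
    rw [hδdef]
    field_simp
  obtain ⟨R, D1, hD1⟩ := offdiag hT hfact hr h2r f hf h0 hδ
  obtain ⟨D2, hD2⟩ := factor_unif hT (factSet_le hfact (show r ≤ m by omega))
    (fun i x => f i x * (starRingEnd ℂ) (f i x)) (fun i => BM.mul (hf i) (BM.conj (hf i))) hδ
  refine ⟨R, max D1 D2, fun G hG F hFM hF1 hF3 => ?_⟩
  have hBt : ∀ s : Fin r → ℕ, BM (fun x => ∏ i, f i ((⇑T)^[s i] x)) :=
    fun s => BM.prod hf T s
  set g : (Fin r → ℕ) → Lp ℂ 2 μ := fun s => (BM.memLp (hBt s)).toLp _ with hg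
  have hGc : MemLp (fun x => (starRingEnd ℂ) (G x)) 2 μ := hG.star
  set x0 : Lp ℂ 2 μ := hGc.toLp _ with hx0
  have hinner : ∀ s s', inner ℂ (g s) (g s') = ∫ x, ∏ i,
      (f i ((⇑T)^[s' i] x) * (starRingEnd ℂ) (f i ((⇑T)^[s i] x))) ∂μ := by
    intro s s'
    refine (inner_lp (hBt s) (hBt s')).trans ?_
    congr 1
    ext x
    rw [map_prod, Finset.prod_mul_distrib, mul_comm]
  have hdiag : ∀ s ∈ F, ‖inner ℂ (g s) (g s)‖ ≤ V + δ := by
    intro s hs
    rw [hinner]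
    have h1 := hD2 s (fun i j hij => by have := hF1 s hs i j hij; omega)
    have e1 : ∀ i, ∫ x, f i x * (starRingEnd ℂ) (f i x) ∂μ = ((v i : ℝ) : ℂ) := by
      intro i
      have h3 : ∫ x, (((‖f i x‖ ^ 2 : ℝ)) : ℂ) ∂μ = ((∫ x, ‖f i x‖ ^ 2 ∂μ : ℝ) : ℂ) :=
        integral_ofReal
      rw [hv]
      simp only
      rw [← h3]
      refine integral_congr_ae (Eventually.of_forall (fun x => ?_))
      simp only
      rw [Complex.mul_conj, Complex.normSq_eq_norm_sq]
    simp only [e1] at h1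
    have h5 := norm_add_le (∫ x, ∏ i, (f i ((⇑T)^[s i] x)
        * (starRingEnd ℂ) (f i ((⇑T)^[s i] x))) ∂μ - ∏ i, ((v i : ℝ) : ℂ))
        (∏ i, ((v i : ℝ) : ℂ))
    rw [sub_add_cancel] at h5
    have h6 : ‖∏ i, ((v i : ℝ) : ℂ)‖ = V := by
      rw [norm_prod, hV]
      refine Finset.prod_congr rfl (fun i _ => ?_)
      rw [Complex.norm_real, Real.norm_eq_abs, abs_of_nonneg (hv0 i)]
    rw [h6] at h5
    linarith
  have hoff : ∀ s ∈ F, ∀ s' ∈ F, s ≠ s' → ‖inner ℂ (g s) (g s')‖ ≤ δ := by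
    intro s hs s' hs' hne
    rw [hinner]
    obtain ⟨i, hi⟩ := hF3 s hs s' hs' hne
    exact (hD1 s' s (fun i j hij => by have := hF1 s' hs' i j hij; omega)
      (fun i j hij => by have := hF1 s hs i j hij; omega) ⟨i, hi.symm⟩).le
  have hrow : ∀ s ∈ F, ∑ s' ∈ F, ‖inner ℂ (g s) (g s')‖ ≤ V + η := by
    intro s hs
    rw [← Finset.add_sum_erase _ _ hs]
    have h1 : ∑ s' ∈ F.erase s, ‖inner ℂ (g s) (g s')‖ ≤ M * δ := by
      calc ∑ s' ∈ F.erase s, ‖inner ℂ (g s) (g s')‖ ≤ ∑ s' ∈ F.erase s, δ :=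
            Finset.sum_le_sum (fun s' hs' => hoff s hs s' (Finset.mem_of_mem_erase hs')
              (Finset.ne_of_mem_erase hs').symm)
        _ = ((F.erase s).card : ℝ) * δ := by rw [Finset.sum_const, nsmul_eq_mul]
        _ ≤ M * δ := by
            refine mul_le_mul_of_nonneg_right ?_ hδ.le
            exact_mod_cast (Finset.card_erase_le.trans hFM)
    have h2 := hdiag s hs
    nlinarith
  have hfin := bombieri F g x0 (V + η) (by positivity) hrow
  have hx0n : ‖x0‖ ^ 2 = ∫ x, ‖G x‖ ^ 2 ∂μ := by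
    have h1 := inner_self_eq_norm_sq (𝕜 := ℂ) x0
    have h2 : inner ℂ x0 x0 = ((∫ x, ‖G x‖ ^ 2 ∂μ : ℝ) : ℂ) := by
      have h3 : ∫ x, (((‖G x‖ ^ 2 : ℝ)) : ℂ) ∂μ = ((∫ x, ‖G x‖ ^ 2 ∂μ : ℝ) : ℂ) :=
        integral_ofReal
      rw [← h3, L2.inner_def]
      refine integral_congr_ae ?_
      filter_upwards [hGc.coeFn_toLp] with x hx
      rw [hx0, hx, RCLike.inner_apply]
      simp only [RingHomCompTriple.comp_apply, RingHom.id_apply]
      rw [mul_comm, Complex.mul_conj, Complex.normSq_eq_norm_sq]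
    rw [h2] at h1
    rw [← h1]
    simp
  have hval : ∀ s ∈ F, ‖inner ℂ (g s) x0‖ = ‖∫ x, G x * ∏ i, f i ((⇑T)^[s i] x) ∂μ‖ := by
    intro s hs
    have h1 : inner ℂ (g s) x0 = ∫ x, (starRingEnd ℂ) (∏ i, f i ((⇑T)^[s i] x)) *
        (starRingEnd ℂ) (G x) ∂μ := by
      rw [L2.inner_def]
      refine integral_congr_ae ?_
      filter_upwards [(BM.memLp (μ := μ) (hBt s)).coeFn_toLp, hGc.coeFn_toLp] with x hx1 hx2
      rw [hg, hx0]
      simp only
      rw [hx1, hx2, RCLike.inner_apply, mul_comm]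
    rw [h1, ← RCLike.norm_conj (∫ x, G x * ∏ i, f i ((⇑T)^[s i] x) ∂μ), ← integral_conj]
    congr 2
    ext x
    rw [map_mul, mul_comm]
  rw [hx0n] at hfin
  calc ∑ s ∈ F, ‖∫ x, G x * ∏ i, f i ((⇑T)^[s i] x) ∂μ‖ ^ 2
      = ∑ s ∈ F, ‖inner ℂ (g s) x0‖ ^ 2 :=
        Finset.sum_congr rfl (fun s hs => by rw [hval s hs])
    _ ≤ _ := hfin

end Pool.Agent.W735.Rok
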