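import Pool.Agent.W735.Rok.Free

set_option autoImplicit false
open MeasureTheory Filter Topology
open Pool.Agent.H716R2

namespace Pool.Agent.W735.Rok

variable {X : Type*} [MeasurableSpace X]

/-- Uniform bound for the number of exceptional times, and Bessel inequality. -/
theorem free_uniform {k : ℕ} {μ : Measure X} [IsProbabilityMeasure μ]
    {T : X ≃ᵐ X} (hT : MeasurePreserving T μ μ) (hfact : FactSet μ T (k + 1)) {r : ℕ}
    (hr : 1 ≤ r) (h2r : 2 * r ≤ k + 1)
    (f : Fin r → X → ℂ) (hBM : ∀ i, BM (f i))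
    (h0 : ∀ i, ∫ x, f i x ∂μ = 0) (ε : ℝ) (hε : 0 < ε) :
    ∃ R D K : ℕ, ∀ G : X → ℂ, MemLp G 2 μ → ∫ x, ‖G x‖ ^ 2 ∂μ ≤ 1 →
      ∀ F : Finset (Fin r → ℕ),
      (∀ s ∈ F, (∀ i j, i < j → s i + D ≤ s j) ∧
        ε ≤ ‖∫ x, G x * ∏ i, f i ((⇑T)^[s i] x) ∂μ‖) →
      F.card ≤ K ∧
      ((∀ s ∈ F, ∀ s' ∈ F, s ≠ s' → ∃ i, s i + R < s' i ∨ s' i + R < s i) →
        ∑ s ∈ F, ‖∫ x, G x * ∏ i, f i ((⇑T)^[s i] x) ∂μ‖ ^ 2
          ≤ ∏ i, ∫ x, ‖f i x‖ ^ 2 ∂μ + ε) := by
  classical
  set c : ℝ := ∏ i, ∫ x, ‖f i x‖ ^ 2 ∂μ with hc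
  have hc0 : 0 ≤ c := Finset.prod_nonneg (fun i _ => integral_nonneg (fun x => by positivity))
  obtain ⟨M, hM⟩ := exists_nat_gt ((c + ε) / ε ^ 2)
  have hMε : c + ε < M * ε ^ 2 := by rwa [div_lt_iff₀ (by positivity)] at hM
  obtain ⟨R, D, hD⟩ := bessel_free hT hfact hr h2r f hBM h0 M hε
  refine ⟨R, D, M * (2 * R + 1) ^ r, fun G hG hG1 F hF1 => ?_⟩
  have hle : (c + ε) * ∫ x, ‖G x‖ ^ 2 ∂μ ≤ c + ε := by nlinarith
  have hsmall : ∀ F' ⊆ F, (∀ s ∈ F', ∀ s' ∈ F', s ≠ s' → ∃ i, s i + R < s' i ∨ s' i + R < s i) →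
      F'.card ≤ M := by
    intro F' hF' hsep
    by_contra hcon
    push Not at hcon
    obtain ⟨F'', hF'', hcard⟩ := Finset.exists_subset_card_eq hcon.le
    have h1 := hD G hG F'' hcard.le (fun s hs => (hF1 s (hF' (hF'' hs))).1)
      (fun s hs s' hs' => hsep s (hF'' hs) s' (hF'' hs'))
    have h2 : (M : ℝ) * ε ^ 2 ≤ ∑ s ∈ F'', ‖∫ x, G x * ∏ i, f i ((⇑T)^[s i] x) ∂μ‖ ^ 2 := by
      have h3 : ∑ _s ∈ F'', ε ^ 2 = (M : ℝ) * ε ^ 2 := by
        rw [Finset.sum_const, hcard, nsmul_eq_mul]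
      rw [← h3]
      exact Finset.sum_le_sum (fun s hs =>
        pow_le_pow_left₀ hε.le (hF1 s (hF' (hF'' hs))).2 2)
    linarith
  constructor
  · obtain ⟨F', hF', hsep, hdense⟩ := separated_subset F R
    refine (card_of_dense F F' R hdense).trans ?_
    exact Nat.mul_le_mul_right _ (hsmall F' hF' hsep)
  · intro hsep
    exact (hD G hG F (hsmall F (Finset.Subset.refl F) hsep)
      (fun s hs => (hF1 s hs).1) hsep).trans hle

/-- The number of exceptional times for one product of centred functions. -/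
theorem count_subset {k : ℕ} (hk : 1 ≤ k) {μ : Measure X} [IsProbabilityMeasure μ]
    {T : X ≃ᵐ X} (hT : MeasurePreserving T μ μ) (hfact : FactSet μ T (k + 1)) {m : ℕ}
    (f : Fin (m + 1) → X → ℂ) (hBM : ∀ i, BM (f i)) (h0 : ∀ i, ∫ x, f i x ∂μ = 0)
    (A : Finset (Fin (m + 1))) (hA : k + 2 ≤ A.card) {ε : ℝ} (hε : 0 < ε) :
    ∃ D K : ℕ, ∀ N : ℕ, ∀ F : Finset (Fin (m + 1) → ℕ),
      (∀ s ∈ F, s 0 = 0 ∧ (∀ i j, i < j → s i + D ≤ s j) ∧ (∀ i, s i ≤ N) ∧
        ε ≤ ‖∫ x, ∏ i ∈ A, f i ((⇑T)^[s i] x) ∂μ‖) →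
      F.card ≤ K * (N + 1) ^ (m - (k + 1) / 2) := by
  classical
  set r : ℕ := (k + 1) / 2 with hr
  have hr1 : 1 ≤ r := by omega
  have h2r : 2 * r ≤ k + 1 := by omega
  have hAr : r ≤ (A.erase 0).card := by
    have := Finset.pred_card_le_card_erase (s := A) (a := 0)
    omega
  obtain ⟨B, hBA, hBr⟩ := Finset.exists_subset_card_eq hAr
  set e : Fin r ↪o Fin (m + 1) := B.orderEmbOfFin hBr with he
  have heB : ∀ j, e j ∈ B := fun j => Finset.orderEmbOfFin_mem _ _ _
  have hBA' : B ⊆ A := hBA.trans (Finset.erase_subset _ _)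
  have hB0 : (0 : Fin (m + 1)) ∉ B := fun h => by
    have := hBA h
    simp at this
  have hne : Nonempty X := by
    by_contra hcon
    rw [not_nonempty_iff] at hcon
    have h1 : μ Set.univ = 1 := measure_univ
    rw [Set.univ_eq_empty_iff.2 hcon, measure_empty] at h1
    exact zero_ne_one h1
  have hBM' := hBM
  choose hm C hC using hBM'
  have hC0 : ∀ i, 0 ≤ C i := fun i => (norm_nonneg _).trans (hC i hne.some)
  set Cp : ℝ := ∏ i ∈ A \ B, C i with hCp
  have hCp0 : 0 ≤ Cp := Finset.prod_nonneg (fun i _ => hC0 i)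
  have hCp1 : 0 < Cp + 1 := by linarith
  obtain ⟨R, D, K, hK⟩ := free_uniform hT hfact hr1 h2r (fun j => f (e j)) (fun j => hBM _)
    (fun j => h0 _) (ε / (Cp + 1)) (by positivity)
  refine ⟨D, K, fun N F hF => ?_⟩
  set ρ : (Fin (m + 1) → ℕ) → (Fin (m + 1) → ℕ) := fun s i => if i ∈ B then 0 else s i with hρ
  have hfib : ∀ t ∈ F.image ρ, (F.filter (fun s => ρ s = t)).card ≤ K := by
    intro t _
    set G : X → ℂ := fun x => ((Cp + 1 : ℝ) : ℂ)⁻¹ * ∏ i ∈ A \ B, f i ((⇑T)^[t i] x) with hG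
    have hGb : ∀ x, ‖G x‖ ≤ 1 := by
      intro x
      rw [hG]
      simp only
      rw [norm_mul, norm_inv, Complex.norm_real, Real.norm_eq_abs, abs_of_pos hCp1, norm_prod,
        inv_mul_le_iff₀ hCp1, mul_one]
      have h1 : ∏ i ∈ A \ B, ‖f i ((⇑T)^[t i] x)‖ ≤ Cp :=
        Finset.prod_le_prod (fun i _ => norm_nonneg _) (fun i _ => hC i _)
      linarith
    have hGm : Measurable G := by
      refine measurable_const.mul ?_
      refine Finset.measurable_prod _ (fun i _ => ?_)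
      exact (hm i).comp (T.measurable.iterate _)
    have hGL : MemLp G 2 μ := MemLp.of_bound hGm.aestronglyMeasurable 1
      (Eventually.of_forall hGb)
    have hG1 : ∫ x, ‖G x‖ ^ 2 ∂μ ≤ 1 := by
      have h1 : ∫ x, ‖G x‖ ^ 2 ∂μ ≤ ∫ _x, (1 : ℝ) ∂μ := by
        refine integral_mono_of_nonneg (Eventually.of_forall (fun x => by positivity))
          (integrable_const _) (Eventually.of_forall (fun x => ?_))
        have h2 := hGb x
        have h3 := norm_nonneg (G x)
        simp only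
        nlinarith
      simpa using h1
    have hinj : Set.InjOn (fun s : Fin (m + 1) → ℕ => fun j => s (e j))
        (F.filter (fun s => ρ s = t)) := by
      intro s hs s' hs' hss
      have hs2 : ρ s = t := (Finset.mem_filter.1 (Finset.mem_coe.1 hs)).2
      have hs2' : ρ s' = t := (Finset.mem_filter.1 (Finset.mem_coe.1 hs')).2
      funext i
      by_cases hi : i ∈ B
      · have h1 : i ∈ Set.range e := by
          rw [he, Finset.range_orderEmbOfFin]
          exact hi
        obtain ⟨j, rfl⟩ := h1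
        exact congrFun hss j
      · have h1 := congrFun hs2 i
        have h2 := congrFun hs2' i
        simp only [hρ, if_neg hi] at h1 h2
        rw [h1, h2]
    rw [← Finset.card_image_of_injOn hinj]
    refine (hK G hGL hG1 _ ?_).1
    intro u hu
    obtain ⟨s, hs, rfl⟩ := Finset.mem_image.1 hu
    obtain ⟨hsF, hst⟩ := Finset.mem_filter.1 hs
    obtain ⟨_, hgap, _, hbig⟩ := hF s hsF
    refine ⟨fun i j hij => hgap _ _ (e.strictMono hij), ?_⟩
    have h1 : ∀ x, G x * ∏ j, f (e j) ((⇑T)^[s (e j)] x)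
        = ((Cp + 1 : ℝ) : ℂ)⁻¹ * ∏ i ∈ A, f i ((⇑T)^[s i] x) := by
      intro x
      have h2 : ∏ j, f (e j) ((⇑T)^[s (e j)] x) = ∏ i ∈ B, f i ((⇑T)^[s i] x) := by
        have h3 : B = Finset.univ.map e.toEmbedding := by
          rw [he, Finset.map_orderEmbOfFin_univ]
        conv_rhs => rw [h3]
        rw [Finset.prod_map]
        rfl
      have h4 : ∏ i ∈ A \ B, f i ((⇑T)^[t i] x) = ∏ i ∈ A \ B, f i ((⇑T)^[s i] x) := by
        refine Finset.prod_congr rfl (fun i hi => ?_)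
        have hiB : i ∉ B := (Finset.mem_sdiff.1 hi).2
        have h5 := congrFun hst i
        simp only [hρ, if_neg hiB] at h5
        rw [h5]
      rw [hG]
      simp only
      rw [h2, h4, mul_assoc, Finset.prod_sdiff hBA']
    simp only [h1]
    rw [integral_const_mul, norm_mul, norm_inv, Complex.norm_real, Real.norm_eq_abs,
      abs_of_pos hCp1, div_eq_inv_mul]
    exact mul_le_mul_of_nonneg_left hbig (by positivity)
  have hcard1 : F.card ≤ K * (F.image ρ).card := by
    exact Finset.card_le_mul_card_image F K hfib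
  have hcard2 : (F.image ρ).card ≤ (N + 1) ^ (m - r) := by
    have h1 : F.image ρ ⊆ Fintype.piFinset
        (fun i => if i ∈ insert 0 B then ({0} : Finset ℕ) else Finset.range (N + 1)) := by
      intro t ht
      obtain ⟨s, hs, rfl⟩ := Finset.mem_image.1 ht
      obtain ⟨hs0, _, hsN, _⟩ := hF s hs
      rw [Fintype.mem_piFinset]
      intro i
      by_cases hi : i ∈ insert 0 B
      · rw [if_pos hi, Finset.mem_singleton]
        rw [Finset.mem_insert] at hi
        rcases hi with rfl | hi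
        · simp only [hρ, if_neg hB0, hs0]
        · simp only [hρ, if_pos hi]
      · rw [if_neg hi, Finset.mem_range]
        rw [Finset.mem_insert, not_or] at hi
        simp only [hρ, if_neg hi.2]
        have := hsN i
        omega
    refine (Finset.card_le_card h1).trans ?_
    rw [Fintype.card_piFinset]
    have h2 : ∀ i : Fin (m + 1), (if i ∈ insert 0 B then ({0} : Finset ℕ)
        else Finset.range (N + 1)).card = if i ∈ insert 0 B then 1 else N + 1 := by
      intro i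
      split_ifs
      · simp
      · simp
    simp only [h2]
    rw [Finset.prod_ite, Finset.prod_const_one, one_mul, Finset.prod_const]
    have h3 : (Finset.univ.filter (fun i : Fin (m + 1) => i ∉ insert 0 B)).card = m - r := by
      have h4 : Finset.univ.filter (fun i : Fin (m + 1) => i ∉ insert 0 B)
          = (insert 0 B)ᶜ := by
        ext i
        simp
      rw [h4, Finset.card_compl, Fintype.card_fin, Finset.card_insert_of_notMem hB0, hBr]
      omega
    rw [h3]
  calc F.card ≤ K * (F.image ρ).card := hcard1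
    _ ≤ K * (N + 1) ^ (m - r) := Nat.mul_le_mul_left _ hcard2

/-- The number of exceptional times for one nonempty product of centred functions. -/
theorem count_any {k : ℕ} (hk : 1 ≤ k) {μ : Measure X} [IsProbabilityMeasure μ]
    {T : X ≃ᵐ X} (hT : MeasurePreserving T μ μ) (hfact : FactSet μ T (k + 1)) {m : ℕ}
    (f : Fin (m + 1) → X → ℂ) (hBM : ∀ i, BM (f i)) (h0 : ∀ i, ∫ x, f i x ∂μ = 0)
    (A : Finset (Fin (m + 1))) (hA : A.Nonempty) {ε : ℝ} (hε : 0 < ε) :
    ∃ D K : ℕ, ∀ N : ℕ, ∀ F : Finset (Fin (m + 1) → ℕ),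
      (∀ s ∈ F, s 0 = 0 ∧ (∀ i j, i < j → s i + D ≤ s j) ∧ (∀ i, s i ≤ N) ∧
        ε ≤ ‖∫ x, ∏ i ∈ A, f i ((⇑T)^[s i] x) ∂μ‖) →
      F.card ≤ K * (N + 1) ^ (m - (k + 1) / 2) := by
  classical
  rcases Nat.lt_or_ge (k + 1) A.card with h | h
  · exact count_subset hk hT hfact f hBM h0 A h hε
  · set e : Fin A.card ↪o Fin (m + 1) := A.orderEmbOfFin rfl with he
    obtain ⟨D, hD⟩ := factor_unif hT (factSet_le hfact h) (fun j => f (e j))
      (fun j => hBM _) hε
    refine ⟨D, 0, fun N F hF => ?_⟩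
    have hF0 : F = ∅ := by
      rw [Finset.eq_empty_iff_forall_notMem]
      intro s hs
      obtain ⟨_, hgap, _, hbig⟩ := hF s hs
      have h1 := hD (fun j => s (e j)) (fun i j hij => hgap _ _ (e.strictMono hij))
      have h2 : ∀ x, ∏ j, f (e j) ((⇑T)^[s (e j)] x) = ∏ i ∈ A, f i ((⇑T)^[s i] x) := by
        intro x
        have h3 : A = Finset.univ.map e.toEmbedding := by
          rw [he, Finset.map_orderEmbOfFin_univ]
        conv_rhs => rw [h3]
        rw [Finset.prod_map]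
        rfl
      have hpos : 0 < A.card := Finset.card_pos.2 hA
      have h4 : ∏ j, ∫ x, f (e j) x ∂μ = 0 :=
        Finset.prod_eq_zero (Finset.mem_univ (⟨0, hpos⟩ : Fin A.card)) (h0 _)
      rw [h4, sub_zero] at h1
      simp only [h2] at h1
      linarith
    rw [hF0]
    simp

end Pool.Agent.W735.Rok
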