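import Pool.Agent.W735.Rok.Bessel

set_option autoImplicit false
open MeasureTheory Filter Topology
open Pool.Agent.H716R2

namespace Pool.Agent.W735.Rok

variable {X : Type*} [MeasurableSpace X]

theorem BM.memLp {μ : Measure X} [IsProbabilityMeasure μ] {g : X → ℂ} (hg : BM g) :
    MemLp g 2 μ := by
  obtain ⟨h1, C, h2⟩ := hg
  exact MemLp.of_bound h1.aestronglyMeasurable C (Eventually.of_forall h2)

theorem inner_lp {μ : Measure X} [IsProbabilityMeasure μ] {g h : X → ℂ} (hg : BM g)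
    (hh : BM h) : inner ℂ ((BM.memLp (μ := μ) hg).toLp g) ((BM.memLp (μ := μ) hh).toLp h)
      = ∫ x, (starRingEnd ℂ) (g x) * h x ∂μ := by
  rw [L2.inner_def]
  refine integral_congr_ae ?_
  filter_upwards [(BM.memLp (μ := μ) hg).coeFn_toLp, (BM.memLp (μ := μ) hh).coeFn_toLp]
    with x hx1 hx2
  rw [hx1, hx2, RCLike.inner_apply, mul_comm]

theorem norm_lp {μ : Measure X} [IsProbabilityMeasure μ] {g : X → ℂ} (hg : BM g) :
    ‖(BM.memLp (μ := μ) hg).toLp g‖ ^ 2 = ∫ x, ‖g x‖ ^ 2 ∂μ := by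
  have h1 := inner_self_eq_norm_sq (𝕜 := ℂ) ((BM.memLp (μ := μ) hg).toLp g)
  rw [inner_lp hg hg] at h1
  have h2 : ∫ x, (starRingEnd ℂ) (g x) * g x ∂μ = ((∫ x, ‖g x‖ ^ 2 ∂μ : ℝ) : ℂ) := by
    have h3 : ∫ x, (((‖g x‖ ^ 2 : ℝ)) : ℂ) ∂μ = ((∫ x, ‖g x‖ ^ 2 ∂μ : ℝ) : ℂ) := integral_ofReal
    rw [← h3]
    refine integral_congr_ae (Eventually.of_forall (fun x => ?_))
    simp only
    rw [mul_comm, Complex.mul_conj, Complex.normSq_eq_norm_sq]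
  rw [h2] at h1
  rw [← h1]
  simp

theorem bessel_centred {k : ℕ} (hk : 1 ≤ k) {μ : Measure X} [IsProbabilityMeasure μ]
    {T : X ≃ᵐ X} (hT : MeasurePreserving T μ μ) (hfact : FactSet μ T (k + 1))
    (f : Fin (k + 2) → X → ℂ) (hf : ∀ i, BM (f i)) (h0 : ∀ i, ∫ x, f i x ∂μ = 0) (M : ℕ)
    {η : ℝ} (hη : 0 < η) :
    ∃ R : ℕ, ∀ L : ℕ, ∃ D : ℕ, ∀ F : Finset (Fin (k + 2) → ℕ), F.card ≤ M →
      (∀ s ∈ F, s 0 = 0 ∧ ∀ i j, i < j → s i + D ≤ s j) →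
      (∀ s ∈ F, ∀ s' ∈ F, ∀ i, s i ≤ s' i + L) →
      (∀ s ∈ F, ∀ s' ∈ F, s ≠ s' → ∃ i, s i + R < s' i ∨ s' i + R < s i) →
      ∑ s ∈ F, ‖∫ x, ∏ i, f i ((⇑T)^[s i] x) ∂μ‖ ^ 2 ≤ ∏ i, ∫ x, ‖f i x‖ ^ 2 ∂μ + η := by
  classical
  set v : Fin (k + 2) → ℝ := fun i => ∫ x, ‖f i x‖ ^ 2 ∂μ with hv
  have hv0 : ∀ i, 0 ≤ v i := fun i => integral_nonneg (fun x => by positivity)
  set V : ℝ := ∏ i : Fin (k + 1), v i.succ with hV
  set V' : ℝ := ∏ i : Fin (k + 1), (1 + v i.succ) with hV'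
  have hV0 : 0 ≤ V := Finset.prod_nonneg (fun i _ => hv0 _)
  have hV'0 : 0 ≤ V' := Finset.prod_nonneg (fun i _ => by have := hv0 i.succ; linarith)
  set δ : ℝ := η / ((v 0 + 1) * (1 + M * (V' + 1))) with hδdef
  have hden : 0 < (v 0 + 1) * (1 + M * (V' + 1)) := by
    have := hv0 0
    positivity
  have hδ : 0 < δ := div_pos hη hden
  have hδη : v 0 * (δ * (1 + M * (V' + 1))) ≤ η := by
    have h1 : (v 0 + 1) * (δ * (1 + M * (V' + 1))) = η := by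
      have hv00 : v 0 + 1 ≠ 0 := by have := hv0 0; positivity
      have hv01 : 1 + (M : ℝ) * (V' + 1) ≠ 0 := by positivity
      rw [hδdef]
      field_simp
    have h2 : 0 ≤ δ * (1 + M * (V' + 1)) := by positivity
    nlinarith
  choose R' hR' using fun i => cor_decay hk hT hfact (hf i) (h0 i) hδ
  refine ⟨Finset.univ.sup R', fun L => ?_⟩
  obtain ⟨D, hD⟩ := gram hT hfact (fun i : Fin (k + 1) => f i.succ) (fun i => hf _) L hδ
  refine ⟨D, fun F hFM hF1 hF2 hF3 => ?_⟩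
  have hBt : ∀ s : Fin (k + 2) → ℕ, BM (fun x => ∏ i : Fin (k + 1), f i.succ ((⇑T)^[s i.succ] x)) :=
    fun s => BM.prod (fun i => hf i.succ) T (fun i : Fin (k + 1) => s i.succ)
  set g : (Fin (k + 2) → ℕ) → Lp ℂ 2 μ := fun s => (BM.memLp (hBt s)).toLp _ with hg
  set x0 : Lp ℂ 2 μ := (BM.memLp (BM.conj (hf 0))).toLp _ with hx0
  have hinner : ∀ s s', inner ℂ (g s) (g s') = ∫ x, ∏ i : Fin (k + 1),
      (f i.succ ((⇑T)^[s' i.succ] x) * (starRingEnd ℂ) (f i.succ ((⇑T)^[s i.succ] x))) ∂μ := by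
    intro s s'
    refine (inner_lp (hBt s) (hBt s')).trans ?_
    congr 1
    ext x
    rw [map_prod, Finset.prod_mul_distrib, mul_comm]
  have hsmall : ∀ s ∈ F, ∀ s' ∈ F, ‖inner ℂ (g s) (g s')‖
      ≤ δ + ‖∏ i : Fin (k + 1), cor μ T (f i.succ) (s' i.succ) (s i.succ)‖ := by
    intro s hs s' hs'
    have h1 := hD (fun i => s' i.succ) (fun i => s i.succ)
      (fun i j hij => (hF1 s' hs').2 _ _ (Fin.succ_lt_succ_iff.2 hij))
      (fun i j hij => (hF1 s hs).2 _ _ (Fin.succ_lt_succ_iff.2 hij))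
      (fun i => ⟨hF2 s' hs' s hs _, hF2 s hs s' hs' _⟩)
    rw [hinner]
    have h2 := norm_add_le (∫ x, ∏ i : Fin (k + 1),
      (f i.succ ((⇑T)^[s' i.succ] x) * (starRingEnd ℂ) (f i.succ ((⇑T)^[s i.succ] x))) ∂μ
      - ∏ i : Fin (k + 1), cor μ T (f i.succ) (s' i.succ) (s i.succ))
      (∏ i : Fin (k + 1), cor μ T (f i.succ) (s' i.succ) (s i.succ))
    rw [sub_add_cancel] at h2
    linarith
  have hdiag : ∀ s ∈ F, ‖inner ℂ (g s) (g s)‖ ≤ V + δ := by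
    intro s hs
    have h1 := hsmall s hs s hs
    have h2 : ‖∏ i : Fin (k + 1), cor μ T (f i.succ) (s i.succ) (s i.succ)‖ ≤ V := by
      rw [norm_prod]
      exact Finset.prod_le_prod (fun i _ => norm_nonneg _) (fun i _ => cor_le hT (hf _) _ _)
    linarith
  have hoff : ∀ s ∈ F, ∀ s' ∈ F, s ≠ s' → ‖inner ℂ (g s) (g s')‖ ≤ δ * (V' + 1) := by
    intro s hs s' hs' hne
    have h1 := hsmall s hs s' hs'
    obtain ⟨i, hi⟩ := hF3 s hs s' hs' hne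
    have hi0 : i ≠ 0 := by
      rintro rfl
      have := (hF1 s hs).1
      have := (hF1 s' hs').1
      omega
    obtain ⟨j, rfl⟩ := Fin.exists_succ_eq.2 hi0
    have hRj : R' j.succ ≤ Finset.univ.sup R' := Finset.le_sup (Finset.mem_univ _)
    have h2 : ‖cor μ T (f j.succ) (s' j.succ) (s j.succ)‖ < δ :=
      hR' j.succ _ _ (by omega)
    have h3 : ‖∏ i : Fin (k + 1), cor μ T (f i.succ) (s' i.succ) (s i.succ)‖ ≤ δ * V' := by
      rw [norm_prod, hV', ← Finset.mul_prod_erase _ _ (Finset.mem_univ j),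
        ← Finset.mul_prod_erase _ (fun i : Fin (k + 1) => (1 + v i.succ)) (Finset.mem_univ j),
        ← mul_assoc]
      refine mul_le_mul ?_ ?_ (Finset.prod_nonneg (fun i _ => norm_nonneg _)) ?_
      · have := hv0 j.succ
        nlinarith
      · refine Finset.prod_le_prod (fun i _ => norm_nonneg _) (fun i _ => ?_)
        have := cor_le hT (hf i.succ) (s' i.succ) (s i.succ)
        change _ ≤ v i.succ at this
        linarith
      · have := hv0 j.succ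
        positivity
    nlinarith
  have hrow : ∀ s ∈ F, ∑ s' ∈ F, ‖inner ℂ (g s) (g s')‖ ≤ V + δ * (1 + M * (V' + 1)) := by
    intro s hs
    rw [← Finset.add_sum_erase _ _ hs]
    have h1 : ∑ s' ∈ F.erase s, ‖inner ℂ (g s) (g s')‖ ≤ M * (δ * (V' + 1)) := by
      calc ∑ s' ∈ F.erase s, ‖inner ℂ (g s) (g s')‖ ≤ ∑ s' ∈ F.erase s, δ * (V' + 1) :=
            Finset.sum_le_sum (fun s' hs' => hoff s hs s' (Finset.mem_of_mem_erase hs')
              (Finset.ne_of_mem_erase hs').symm)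
        _ = ((F.erase s).card : ℝ) * (δ * (V' + 1)) := by rw [Finset.sum_const, nsmul_eq_mul]
        _ ≤ M * (δ * (V' + 1)) := by
            refine mul_le_mul_of_nonneg_right ?_ (by positivity)
            exact_mod_cast (Finset.card_erase_le.trans hFM)
    have h2 := hdiag s hs
    nlinarith
  have hfin := bombieri F g x0 (V + δ * (1 + M * (V' + 1))) (by positivity) hrow
  have hx0n : ‖x0‖ ^ 2 = v 0 := by
    rw [hx0, norm_lp (BM.conj (hf 0))]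
    simp only [RCLike.norm_conj, hv]
  have hval : ∀ s ∈ F, ‖inner ℂ (g s) x0‖ = ‖∫ x, ∏ i, f i ((⇑T)^[s i] x) ∂μ‖ := by
    intro s hs
    have h1 : inner ℂ (g s) x0 = _ := inner_lp (hBt s) (BM.conj (hf 0))
    rw [h1, ← RCLike.norm_conj (∫ x, ∏ i, f i ((⇑T)^[s i] x) ∂μ), ← integral_conj]
    congr 2
    ext x
    rw [Fin.prod_univ_succ (fun i => f i ((⇑T)^[s i] x)), (hF1 s hs).1, map_mul, mul_comm]
    rfl
  rw [hx0n] at hfin
  calc ∑ s ∈ F, ‖∫ x, ∏ i, f i ((⇑T)^[s i] x) ∂μ‖ ^ 2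
      = ∑ s ∈ F, ‖inner ℂ (g s) x0‖ ^ 2 :=
        Finset.sum_congr rfl (fun s hs => by rw [hval s hs])
    _ ≤ (V + δ * (1 + M * (V' + 1))) * v 0 := hfin
    _ ≤ v 0 * V + η := by nlinarith
    _ = ∏ i, v i + η := by rw [Fin.prod_univ_succ v]

/-- Asymptotic Bessel inequality for families of bounded cardinality. -/
theorem bessel_card {k : ℕ} (hk : 1 ≤ k) {μ : Measure X} [IsProbabilityMeasure μ]
    {T : X ≃ᵐ X} (hT : MeasurePreserving T μ μ) (hfact : FactSet μ T (k + 1))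
    (f : Fin (k + 2) → X → ℂ) (hf : ∀ i, BM (f i)) (M : ℕ) {η : ℝ} (hη : 0 < η) :
    ∃ R : ℕ, ∀ L : ℕ, ∃ D : ℕ, ∀ F : Finset (Fin (k + 2) → ℕ), F.card ≤ M →
      (∀ s ∈ F, s 0 = 0 ∧ ∀ i j, i < j → s i + D ≤ s j) →
      (∀ s ∈ F, ∀ s' ∈ F, ∀ i, s i ≤ s' i + L) →
      (∀ s ∈ F, ∀ s' ∈ F, s ≠ s' → ∃ i, s i + R < s' i ∨ s' i + R < s i) →
      ∑ s ∈ F, ‖∫ x, ∏ i, f i ((⇑T)^[s i] x) ∂μ - ∏ i, ∫ x, f i x ∂μ‖ ^ 2
        ≤ ∏ i, ∫ x, ‖f i x - ∫ y, f i y ∂μ‖ ^ 2 ∂μ + η := by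
  classical
  set f' : Fin (k + 2) → X → ℂ := fun i x => f i x - ∫ y, f i y ∂μ with hf'
  have hf'B : ∀ i, BM (f' i) := fun i => (hf i).sub (BM.const _)
  have hmean : ∀ i, ∫ x, f' i x ∂μ = 0 := by
    intro i
    simp only [hf']
    rw [integral_sub (hf i).integrable (integrable_const _)]
    simp
  choose hm C hC using hf'B
  have hC0 : ∀ i, 0 ≤ C i := by
    intro i
    have hne : Nonempty X := by
      by_contra hcon
      rw [not_nonempty_iff] at hcon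
      have h1 : μ Set.univ = 1 := measure_univ
      rw [Set.univ_eq_empty_iff.2 hcon, measure_empty] at h1
      exact zero_ne_one h1
    exact (norm_nonneg _).trans (hC i hne.some)
  set Cp : ℝ := ∏ i, C i with hCp
  have hCp0 : 0 ≤ Cp := Finset.prod_nonneg (fun i _ => hC0 i)
  have hbd : ∀ s : Fin (k + 2) → ℕ, ‖∫ x, ∏ i, f' i ((⇑T)^[s i] x) ∂μ‖ ≤ Cp := by
    intro s
    have h1 : ∀ x, ‖∏ i, f' i ((⇑T)^[s i] x)‖ ≤ Cp := fun x => by
      rw [norm_prod]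
      exact Finset.prod_le_prod (fun i _ => norm_nonneg _) (fun i _ => hC i _)
    have h2 := norm_integral_le_of_norm_le_const (μ := μ) (Eventually.of_forall h1)
    simpa using h2
  set θ : ℝ := min 1 (η / 2 / ((M + 1) * (2 * Cp + 1))) with hθ
  have hθ0 : 0 < θ := lt_min one_pos (by positivity)
  have hθ1 : θ ≤ 1 := min_le_left _ _
  have hθη : M * (θ * (2 * Cp + 1)) ≤ η / 2 := by
    have h1 : θ ≤ η / 2 / ((M + 1) * (2 * Cp + 1)) := min_le_right _ _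
    have h2 : θ * ((M + 1) * (2 * Cp + 1)) ≤ η / 2 := by
      rwa [le_div_iff₀ (by positivity)] at h1
    have h3 : 0 ≤ θ * (2 * Cp + 1) := by positivity
    nlinarith
  obtain ⟨N, hN⟩ := gap_unif (r := k + 2) (fun s => ‖corr μ T s f - corr μ T s f'‖ < θ) (by
    intro s hs
    have h1 := corr_center hT hfact hs f hf
    obtain ⟨n0, hn0⟩ := Metric.tendsto_atTop.1 h1 θ hθ0
    filter_upwards [eventually_ge_atTop n0] with n hn
    have := hn0 n hn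
    rwa [dist_zero_right] at this)
  obtain ⟨R, hR⟩ := bessel_centred hk hT hfact f' (fun i => ⟨hm i, C i, hC i⟩) hmean M
    (half_pos hη)
  refine ⟨R, fun L => ?_⟩
  obtain ⟨D, hD⟩ := hR L
  refine ⟨max D N, fun F hFM hF1 hF2 hF3 => ?_⟩
  have h1 := hD F hFM (fun s hs => ⟨(hF1 s hs).1, fun i j hij => by
    have := (hF1 s hs).2 i j hij
    omega⟩) hF2 hF3
  have h2 : ∀ s ∈ F, ‖∫ x, ∏ i, f i ((⇑T)^[s i] x) ∂μ - ∏ i, ∫ x, f i x ∂μ‖ ^ 2
      ≤ ‖∫ x, ∏ i, f' i ((⇑T)^[s i] x) ∂μ‖ ^ 2 + θ * (2 * Cp + 1) := by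
    intro s hs
    have h3 := hN s (fun i j hij => by
      have := (hF1 s hs).2 i j hij
      omega)
    have h4 : corr μ T s f' = ∫ x, ∏ i, f' i ((⇑T)^[s i] x) ∂μ := by
      unfold corr
      simp only [hmean]
      simp
    rw [h4] at h3
    have h5 : ‖∫ x, ∏ i, f i ((⇑T)^[s i] x) ∂μ - ∏ i, ∫ x, f i x ∂μ‖
        ≤ ‖∫ x, ∏ i, f' i ((⇑T)^[s i] x) ∂μ‖ + θ := by
      have h6 := norm_add_le (corr μ T s f - ∫ x, ∏ i, f' i ((⇑T)^[s i] x) ∂μ)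
        (∫ x, ∏ i, f' i ((⇑T)^[s i] x) ∂μ)
      rw [sub_add_cancel] at h6
      change ‖corr μ T s f‖ ≤ _
      linarith
    have h7 := hbd s
    have h8 := norm_nonneg (∫ x, ∏ i, f' i ((⇑T)^[s i] x) ∂μ)
    calc ‖∫ x, ∏ i, f i ((⇑T)^[s i] x) ∂μ - ∏ i, ∫ x, f i x ∂μ‖ ^ 2
        ≤ (‖∫ x, ∏ i, f' i ((⇑T)^[s i] x) ∂μ‖ + θ) ^ 2 :=
          pow_le_pow_left₀ (norm_nonneg _) h5 2
      _ ≤ _ := by nlinarith
  calc ∑ s ∈ F, ‖∫ x, ∏ i, f i ((⇑T)^[s i] x) ∂μ - ∏ i, ∫ x, f i x ∂μ‖ ^ 2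
      ≤ ∑ s ∈ F, (‖∫ x, ∏ i, f' i ((⇑T)^[s i] x) ∂μ‖ ^ 2 + θ * (2 * Cp + 1)) :=
        Finset.sum_le_sum h2
    _ = ∑ s ∈ F, ‖∫ x, ∏ i, f' i ((⇑T)^[s i] x) ∂μ‖ ^ 2 + F.card * (θ * (2 * Cp + 1)) := by
        rw [Finset.sum_add_distrib, Finset.sum_const, nsmul_eq_mul]
    _ ≤ (∏ i, ∫ x, ‖f' i x‖ ^ 2 ∂μ + η / 2) + M * (θ * (2 * Cp + 1)) := by
        refine add_le_add h1 (mul_le_mul_of_nonneg_right ?_ (by positivity))
        exact_mod_cast hFM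
    _ ≤ _ := by linarith

end Pool.Agent.W735.Rok
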