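import Pool.Agent.W735.Rok.Count

set_option autoImplicit false
open MeasureTheory Filter Topology
open Pool.Agent.H716R2

namespace Pool.Agent.W735.Rok

variable {X : Type*} [MeasurableSpace X]

/-- Asymptotic Bessel inequality, uniform in the test function. -/
theorem bessel_uniform {k : ℕ} (hk : 1 ≤ k) {μ : Measure X} [IsProbabilityMeasure μ]
    {T : X ≃ᵐ X} (hT : MeasurePreserving T μ μ) (hfact : FactSet μ T (k + 1))
    (f : Fin (k + 1) → X → ℂ) (hf : ∀ i, BM (f i)) (h0 : ∀ i, ∫ x, f i x ∂μ = 0) (M : ℕ)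
    {η : ℝ} (hη : 0 < η) :
    ∃ R : ℕ, ∀ L : ℕ, ∃ D : ℕ, ∀ G : X → ℂ, MemLp G 2 μ → ∀ F : Finset (Fin (k + 1) → ℕ),
      F.card ≤ M →
      (∀ s ∈ F, ∀ i j, i < j → s i + D ≤ s j) →
      (∀ s ∈ F, ∀ s' ∈ F, ∀ i, s i ≤ s' i + L) →
      (∀ s ∈ F, ∀ s' ∈ F, s ≠ s' → ∃ i, s i + R < s' i ∨ s' i + R < s i) →
      ∑ s ∈ F, ‖∫ x, G x * ∏ i, f i ((⇑T)^[s i] x) ∂μ‖ ^ 2
        ≤ (∏ i, ∫ x, ‖f i x‖ ^ 2 ∂μ + η) * ∫ x, ‖G x‖ ^ 2 ∂μ := by
  classical
  set v : Fin (k + 1) → ℝ := fun i => ∫ x, ‖f i x‖ ^ 2 ∂μ with hv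
  have hv0 : ∀ i, 0 ≤ v i := fun i => integral_nonneg (fun x => by positivity)
  set V : ℝ := ∏ i, v i with hV
  set V' : ℝ := ∏ i, (1 + v i) with hV'
  have hV0 : 0 ≤ V := Finset.prod_nonneg (fun i _ => hv0 _)
  have hV'0 : 0 ≤ V' := Finset.prod_nonneg (fun i _ => by have := hv0 i; linarith)
  set δ : ℝ := η / (1 + M * (V' + 1)) with hδdef
  have hden : 0 < 1 + (M : ℝ) * (V' + 1) := by positivity
  have hδ : 0 < δ := div_pos hη hden
  have hδη : δ * (1 + M * (V' + 1)) = η := by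
    rw [hδdef]
    field_simp
  choose R' hR' using fun i => cor_decay hk hT hfact (hf i) (h0 i) hδ
  refine ⟨Finset.univ.sup R', fun L => ?_⟩
  obtain ⟨D, hD⟩ := gram hT hfact f hf L hδ
  refine ⟨D, fun G hG F hFM hF1 hF2 hF3 => ?_⟩
  have hBt : ∀ s : Fin (k + 1) → ℕ, BM (fun x => ∏ i, f i ((⇑T)^[s i] x)) :=
    fun s => BM.prod hf T s
  set g : (Fin (k + 1) → ℕ) → Lp ℂ 2 μ := fun s => (BM.memLp (hBt s)).toLp _ with hg
  have hGc : MemLp (fun x => (starRingEnd ℂ) (G x)) 2 μ := hG.star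
  set x0 : Lp ℂ 2 μ := hGc.toLp _ with hx0
  have hinner : ∀ s s', inner ℂ (g s) (g s') = ∫ x, ∏ i,
      (f i ((⇑T)^[s' i] x) * (starRingEnd ℂ) (f i ((⇑T)^[s i] x))) ∂μ := by
    intro s s'
    refine (inner_lp (hBt s) (hBt s')).trans ?_
    congr 1
    ext x
    rw [map_prod, Finset.prod_mul_distrib, mul_comm]
  have hsmall : ∀ s ∈ F, ∀ s' ∈ F, ‖inner ℂ (g s) (g s')‖
      ≤ δ + ‖∏ i, cor μ T (f i) (s' i) (s i)‖ := by
    intro s hs s' hs'
    have h1 := hD s' s (hF1 s' hs') (hF1 s hs)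
      (fun i => ⟨hF2 s' hs' s hs _, hF2 s hs s' hs' _⟩)
    rw [hinner]
    have h2 := norm_add_le (∫ x, ∏ i,
      (f i ((⇑T)^[s' i] x) * (starRingEnd ℂ) (f i ((⇑T)^[s i] x))) ∂μ
      - ∏ i, cor μ T (f i) (s' i) (s i))
      (∏ i, cor μ T (f i) (s' i) (s i))
    rw [sub_add_cancel] at h2
    linarith
  have hdiag : ∀ s ∈ F, ‖inner ℂ (g s) (g s)‖ ≤ V + δ := by
    intro s hs
    have h1 := hsmall s hs s hs
    have h2 : ‖∏ i, cor μ T (f i) (s i) (s i)‖ ≤ V := by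
      rw [norm_prod]
      exact Finset.prod_le_prod (fun i _ => norm_nonneg _) (fun i _ => cor_le hT (hf _) _ _)
    linarith
  have hoff : ∀ s ∈ F, ∀ s' ∈ F, s ≠ s' → ‖inner ℂ (g s) (g s')‖ ≤ δ * (V' + 1) := by
    intro s hs s' hs' hne
    have h1 := hsmall s hs s' hs'
    obtain ⟨j, hi⟩ := hF3 s hs s' hs' hne
    have hRj : R' j ≤ Finset.univ.sup R' := Finset.le_sup (Finset.mem_univ _)
    have h2 : ‖cor μ T (f j) (s' j) (s j)‖ < δ := hR' j _ _ (by omega)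
    have h3 : ‖∏ i, cor μ T (f i) (s' i) (s i)‖ ≤ δ * V' := by
      rw [norm_prod, hV', ← Finset.mul_prod_erase _ _ (Finset.mem_univ j),
        ← Finset.mul_prod_erase _ (fun i => (1 + v i)) (Finset.mem_univ j),
        ← mul_assoc]
      refine mul_le_mul ?_ ?_ (Finset.prod_nonneg (fun i _ => norm_nonneg _)) ?_
      · have := hv0 j
        nlinarith
      · refine Finset.prod_le_prod (fun i _ => norm_nonneg _) (fun i _ => ?_)
        have := cor_le hT (hf i) (s' i) (s i)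
        change _ ≤ v i at this
        linarith
      · have := hv0 j
        positivity
    nlinarith
  have hrow : ∀ s ∈ F, ∑ s' ∈ F, ‖inner ℂ (g s) (g s')‖ ≤ V + η := by
    intro s hs
    rw [← Finset.add_sum_erase _ _ hs]
    have h1 : ∑ s' ∈ F.erase s, ‖inner ℂ (g s) (g s')‖ ≤ M * (δ * (V' + 1)) := by
      calc ∑ s' ∈ F.erase s, ‖inner ℂ (g s) (g s')‖ ≤ ∑ s' ∈ F.erase s, δ * (V' + 1) :=
            Finset.sum_le_sum (fun s' hs' => hoff s hs s' (Finset.mem_of_mem_erase hs')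
              (Finset.ne_of_mem_erase hs').symm)
        _ = ((F.erase s).card : ℝ) * (δ * (V' + 1)) := by rw [Finset.sum_const, nsmul_eq_mul]
        _ ≤ M * (δ * (V' + 1)) := by
            refine mul_le_mul_of_nonneg_right ?_ (by positivity)
            exact_mod_cast (Finset.card_erase_le.trans hFM)
    have h2 := hdiag s hs
    nlinarith
  have hfin := bombieri F g x0 (V + η) (by positivity) hrow
  have hx0n : ‖x0‖ ^ 2 = ∫ x, ‖G x‖ ^ 2 ∂μ := by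
    have h1 := inner_self_eq_norm_sq (𝕜 := ℂ) x0
    have h2 : inner ℂ x0 x0 = ((∫ x, ‖G x‖ ^ 2 ∂μ : ℝ) : ℂ) := by
      have h3 : ∫ x, (((‖G x‖ ^ 2 : ℝ)) : ℂ) ∂μ = ((∫ x, ‖G x‖ ^ 2 ∂μ : ℝ) : ℂ) :=
        integral_ofReal
      rw [← h3, L2.inner_def]
      refine integral_congr_ae ?_
      filter_upwards [hGc.coeFn_toLp] with x hx
      rw [hx0, hx, RCLike.inner_apply]
      simp only [RingHomCompTriple.comp_apply, RingHom.id_apply]
      rw [mul_comm, Complex.mul_conj, Complex.normSq_eq_norm_sq]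
    rw [h2] at h1
    rw [← h1]
    simp
  have hval : ∀ s ∈ F, ‖inner ℂ (g s) x0‖ = ‖∫ x, G x * ∏ i, f i ((⇑T)^[s i] x) ∂μ‖ := by
    intro s hs
    have h1 : inner ℂ (g s) x0 = ∫ x, (starRingEnd ℂ) (∏ i, f i ((⇑T)^[s i] x)) *
        (starRingEnd ℂ) (G x) ∂μ := by
      rw [L2.inner_def]
      refine integral_congr_ae ?_
      filter_upwards [(BM.memLp (μ := μ) (hBt s)).coeFn_toLp, hGc.coeFn_toLp] with x hx1 hx2
      rw [hg, hx0]
      simp only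
      rw [hx1, hx2, RCLike.inner_apply, mul_comm]
    rw [h1, ← RCLike.norm_conj (∫ x, G x * ∏ i, f i ((⇑T)^[s i] x) ∂μ), ← integral_conj]
    congr 2
    ext x
    rw [map_mul, mul_comm]
  rw [hx0n] at hfin
  calc ∑ s ∈ F, ‖∫ x, G x * ∏ i, f i ((⇑T)^[s i] x) ∂μ‖ ^ 2
      = ∑ s ∈ F, ‖inner ℂ (g s) x0‖ ^ 2 :=
        Finset.sum_congr rfl (fun s hs => by rw [hval s hs])
    _ ≤ _ := hfin

end Pool.Agent.W735.Rok
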